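import Pool.Agent.Q99.FS.Free

/-!
# Consequences of the selection property
-/

set_option autoImplicit false
set_option linter.unusedSectionVars false
open Filter Topology ENNReal

namespace Q99.FS

universe v

variable {𝕜 : Type} [RCLike 𝕜] {X : Type v} [NormedAddCommGroup X] [NormedSpace 𝕜 X]

theorem enorm_ofReal {E : Type*} [SeminormedAddCommGroup E] (x : E) : ‖x‖ₑ = ENNReal.ofReal ‖x‖ := (ofReal_norm x).symm

theorem edist_ofReal {E : Type*} [SeminormedAddCommGroup E] (a b : E) : edist a b = ENNReal.ofReal ‖a - b‖ := by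
  rw [edist_dist, dist_eq_norm]

theorem mem_ball_of {E : Type*} [SeminormedAddCommGroup E] (z : E) {C : ℝ} (h : ‖z‖ ≤ C) :
    z ∈ Metric.closedBall (0 : E) C := mem_closedBall_zero_iff.2 h

/-- the oscillation is bounded by the weak oscillation -/
theorem ca_le {K : ℝ} (hK : 0 < K) (hS : PropS 𝕜 X K) {x : ℕ → X} {C : ℝ} (hx : ∀ j, ‖x j‖ ≤ C) :
    ca x ≤ ENNReal.ofReal K * delta 𝕜 x := by
  apply le_of_forall_lt
  intro s hs
  obtain ⟨s1, hs1, hs2⟩ := exists_between hs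
  refine lt_of_lt_of_le hs1 ?_
  obtain ⟨s2, hs3, hs4⟩ := exists_between hs2
  have hs2top : s2 ≠ ⊤ := ne_top_of_lt hs4
  have hs1top : s1 ≠ ⊤ := ne_top_of_lt hs3
  have hreal : s1.toReal < s2.toReal := (ENNReal.toReal_lt_toReal hs1top hs2top).2 hs3
  have h1 : ∀ n, ∃ k l, n ≤ k ∧ n ≤ l ∧ s2 < ‖x k - x l‖ₑ := by
    intro n
    have h2 : s2 < ⨆ k : ℕ, ⨆ _ : n ≤ k, ⨆ l : ℕ, ⨆ _ : n ≤ l, ‖x k - x l‖ₑ := lt_of_lt_of_le hs4 (iInf_le _ n)
    obtain ⟨k, h3⟩ := lt_iSup_iff.1 h2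
    obtain ⟨hk, h4⟩ := lt_iSup_iff.1 h3
    obtain ⟨l, h5⟩ := lt_iSup_iff.1 h4
    obtain ⟨hl, h6⟩ := lt_iSup_iff.1 h5
    exact ⟨k, l, hk, hl, h6⟩
  choose k l hk hl hkl using h1
  have hkl' : ∀ n, s2.toReal < ‖x (k n) - x (l n)‖ := by
    intro n
    have h2 := hkl n
    rw [enorm_ofReal] at h2
    exact (ENNReal.lt_ofReal_iff_toReal_lt hs2top).1 h2
  choose h hh1 hh2 using fun n => exists_dual_vector'' 𝕜 (x (k n) - x (l n))
  obtain ⟨f, j, hf, hj, hfj⟩ := hS (fun n => x (k n) - x (l n)) (C + C)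
    (fun n => (norm_sub_le _ _).trans (add_le_add (hx _) (hx _))) h hh1 (s2.toReal - s1.toReal) (by linarith)
  have h3 : ∀ i, s1.toReal ≤ ‖f (x (k (j i))) - f (x (l (j i)))‖ := by
    intro i
    have h4 := hfj i
    rw [hh2] at h4
    have h5 := norm_sub_norm_le ((‖x (k (j i)) - x (l (j i))‖ : ℝ) : 𝕜) (f (x (k (j i)) - x (l (j i))))
    rw [RCLike.norm_ofReal, abs_norm, norm_sub_rev ((‖x (k (j i)) - x (l (j i))‖ : ℝ) : 𝕜)] at h5
    rw [← map_sub]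
    linarith [hkl' (j i)]
  have h6 : s1 ≤ ENNReal.ofReal K * (⨅ n : ℕ, ⨆ k : ℕ, ⨆ _ : n ≤ k, ⨆ l : ℕ, ⨆ _ : n ≤ l,
      ‖(((K⁻¹ : ℝ) : 𝕜) • f) (x k) - (((K⁻¹ : ℝ) : 𝕜) • f) (x l)‖ₑ) := by
    rw [ENNReal.mul_iInf_of_ne (by simpa using hK) ENNReal.ofReal_ne_top]
    apply le_iInf
    intro n
    have h7 : n ≤ j n := hj.id_le n
    have h8 : ENNReal.ofReal K * ‖(((K⁻¹ : ℝ) : 𝕜) • f) (x (k (j n))) - (((K⁻¹ : ℝ) : 𝕜) • f) (x (l (j n)))‖ₑ ≤
        ENNReal.ofReal K * ⨆ k : ℕ, ⨆ _ : n ≤ k, ⨆ l : ℕ, ⨆ _ : n ≤ l,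
          ‖(((K⁻¹ : ℝ) : 𝕜) • f) (x k) - (((K⁻¹ : ℝ) : 𝕜) • f) (x l)‖ₑ := by
      apply mul_le_mul_right
      refine le_iSup_of_le (k (j n)) (le_iSup_of_le (h7.trans (hk _)) ?_)
      exact le_iSup_of_le (l (j n)) (le_iSup_of_le (h7.trans (hl _)) le_rfl)
    refine le_trans ?_ h8
    rw [_root_.smul_apply, _root_.smul_apply, ← smul_sub, enorm_ofReal, norm_smul,
      RCLike.norm_ofReal, abs_of_pos (by positivity), ← ENNReal.ofReal_mul hK.le, ← mul_assoc,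
      mul_inv_cancel₀ hK.ne', one_mul]
    rw [← ENNReal.ofReal_toReal hs1top]
    exact ENNReal.ofReal_le_ofReal (h3 n)
  refine h6.trans (mul_le_mul_right ?_ _)
  refine le_iSup_of_le (((K⁻¹ : ℝ) : 𝕜) • f) (le_iSup_of_le ?_ le_rfl)
  rw [norm_smul, RCLike.norm_ofReal, abs_of_pos (by positivity), inv_mul_le_iff₀ hK, mul_one]
  exact hf

/-- evaluation is weak-star continuous -/
theorem tendsto_eval {𝓥 : Filter ℕ} {a : StrongDual 𝕜 (StrongDual 𝕜 X)} {y : ℕ → X}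
    (h : Tendsto (fun k => StrongDual.toWeakDual (NormedSpace.inclusionInDoubleDual 𝕜 X (y k))) 𝓥
      (𝓝 (StrongDual.toWeakDual a))) (f : StrongDual 𝕜 X) : Tendsto (fun k => f (y k)) 𝓥 (𝓝 (a f)) :=
  ((WeakDual.eval_continuous f).tendsto (StrongDual.toWeakDual a)).comp h

/-- weak-star limits of bounded sequences along ultrafilters -/
theorem exists_limit (𝓥 : Ultrafilter ℕ) {y : ℕ → X} {C : ℝ} (hy : ∀ j, ‖y j‖ ≤ C) :
    ∃ a : StrongDual 𝕜 (StrongDual 𝕜 X),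
      Tendsto (fun k => StrongDual.toWeakDual (NormedSpace.inclusionInDoubleDual 𝕜 X (y k))) 𝓥
        (𝓝 (StrongDual.toWeakDual a)) := by
  have hcomp := WeakDual.isCompact_closedBall (𝕜 := 𝕜) (0 : StrongDual 𝕜 (StrongDual 𝕜 X)) C
  obtain ⟨z, _, hz⟩ := hcomp.ultrafilter_le_nhds
    (𝓥.map (fun k => StrongDual.toWeakDual (NormedSpace.inclusionInDoubleDual 𝕜 X (y k)))) (by
    rw [Filter.le_principal_iff, Ultrafilter.mem_coe, Ultrafilter.mem_map]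
    apply Filter.univ_mem'
    intro k
    show WeakDual.toStrongDual (StrongDual.toWeakDual (NormedSpace.inclusionInDoubleDual 𝕜 X (y k))) ∈
      Metric.closedBall (0 : StrongDual 𝕜 (StrongDual 𝕜 X)) C
    have hb : ‖(NormedSpace.inclusionInDoubleDual 𝕜 X (y k))‖ ≤ C := (NormedSpace.double_dual_bound 𝕜 X (y k)).trans (hy k)
    exact mem_ball_of (E := StrongDual 𝕜 (StrongDual 𝕜 X)) _ hb)
  exact ⟨WeakDual.toStrongDual z, hz⟩

/-- the weak non-compactness of a bounded sequence is bounded by its oscillation -/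
theorem wck_le {x : ℕ → X} {C : ℝ} (hx : ∀ j, ‖x j‖ ≤ C) : wck 𝕜 x ≤ ca x := by
  unfold wck
  refine iSup_le fun σ => iSup_le fun hσ => ?_
  obtain ⟨a, ha⟩ := exists_limit (𝕜 := 𝕜) (hyperfilter ℕ) (y := x ∘ σ) (fun j => hx (σ j))
  have hle : ((hyperfilter ℕ : Ultrafilter ℕ) : Filter ℕ) ≤ atTop := Nat.hyperfilter_le_atTop
  have hcl : a ∈ clust 𝕜 (x ∘ σ) := mapClusterPt_iff_ultrafilter.2 ⟨hyperfilter ℕ, hle, ha⟩
  refine (iInf₂_le a hcl).trans ?_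
  apply le_iInf
  intro n
  have h1 : Metric.infEDist a (canon 𝕜 X) ≤ edist a (NormedSpace.inclusionInDoubleDual 𝕜 X (x (σ n))) :=
    Metric.infEDist_le_edist_of_mem ⟨_, rfl⟩
  refine h1.trans ?_
  set S := ⨆ k : ℕ, ⨆ _ : n ≤ k, ⨆ l : ℕ, ⨆ _ : n ≤ l, ‖x k - x l‖ₑ with hSdef
  have hbd : ∀ k, n ≤ k → ‖x (σ k) - x (σ n)‖ₑ ≤ S := by
    intro k hk
    refine le_iSup_of_le (σ k) (le_iSup_of_le (hk.trans (hσ.id_le k)) ?_)
    exact le_iSup_of_le (σ n) (le_iSup_of_le (hσ.id_le n) le_rfl)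
  by_cases hStop : S = ⊤
  · rw [hStop]
    exact le_top
  rw [edist_ofReal, ← ENNReal.ofReal_toReal hStop]
  apply ENNReal.ofReal_le_ofReal
  apply ContinuousLinearMap.opNorm_le_bound _ ENNReal.toReal_nonneg
  intro f
  have h2 := (tendsto_eval ha f).sub_const (f (x (σ n)))
  have h3 : (a - NormedSpace.inclusionInDoubleDual 𝕜 X (x (σ n))) f = a f - f (x (σ n)) := rfl
  rw [h3]
  refine le_of_tendsto h2.norm ?_
  refine Filter.Eventually.mono (hle (eventually_ge_atTop n)) fun k hk => ?_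
  show ‖f (x (σ k)) - f (x (σ n))‖ ≤ S.toReal * ‖f‖
  rw [← map_sub]
  refine (f.le_opNorm _).trans ?_
  rw [mul_comm]
  apply mul_le_mul_of_nonneg_right _ (norm_nonneg _)
  have h4 := hbd k hk
  rw [enorm_ofReal] at h4
  exact (ENNReal.ofReal_le_iff_le_toReal hStop).1 h4

end Q99.FS
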