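import Mathlib

/-!
# Finitely supported functions and Lipschitz functions on uniformly separated metric spaces
-/

set_option autoImplicit false
set_option linter.unusedSectionVars false
open Filter Topology Finset

namespace Q99.FS

universe v

variable {𝕜 : Type} [RCLike 𝕜] {M : Type v} [MetricSpace M]

/-- Lipschitz functions vanishing at the base point -/
def LipO (o : M) (K : ℝ) (g : M → 𝕜) : Prop := g o = 0 ∧ ∀ x y, ‖g x - g y‖ ≤ K * dist x y

theorem LipO.base {o : M} {K : ℝ} {g : M → 𝕜} (h : LipO o K g) (x : M) : ‖g x‖ ≤ K * dist x o := by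
  have := h.2 x o
  rwa [h.1, sub_zero] at this

/-- the pairing -/
def pr (u : M →₀ 𝕜) (g : M → 𝕜) : 𝕜 := ∑ x ∈ u.support, u x * g x

theorem pr_add (u : M →₀ 𝕜) (g g' : M → 𝕜) : pr u (fun x => g x + g' x) = pr u g + pr u g' := by
  unfold pr
  rw [← Finset.sum_add_distrib]
  exact Finset.sum_congr rfl fun x _ => by ring

theorem pr_sub (u : M →₀ 𝕜) (g g' : M → 𝕜) : pr u (fun x => g x - g' x) = pr u g - pr u g' := by
  unfold pr
  rw [← Finset.sum_sub_distrib]
  exact Finset.sum_congr rfl fun x _ => by ring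

theorem pr_smul (u : M →₀ 𝕜) (c : 𝕜) (g : M → 𝕜) : pr u (fun x => c * g x) = c * pr u g := by
  unfold pr
  rw [Finset.mul_sum]
  exact Finset.sum_congr rfl fun x _ => by ring

theorem pr_sum {ι : Type} (s : Finset ι) (u : M →₀ 𝕜) (g : ι → M → 𝕜) :
    pr u (fun x => ∑ i ∈ s, g i x) = ∑ i ∈ s, pr u (g i) := by
  unfold pr
  rw [Finset.sum_comm]
  exact Finset.sum_congr rfl fun x _ => by rw [Finset.mul_sum]

theorem pr_congr (u : M →₀ 𝕜) {g g' : M → 𝕜} (h : ∀ x ∈ u.support, g x = g' x) : pr u g = pr u g' :=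
  Finset.sum_congr rfl fun x hx => by rw [h x hx]

theorem exists_phase (z : 𝕜) : ∃ c : 𝕜, ‖c‖ = 1 ∧ c * z = (‖z‖ : 𝕜) := by
  by_cases hz : z = 0
  · exact ⟨1, norm_one, by rw [hz, norm_zero, mul_zero, RCLike.ofReal_zero]⟩
  · refine ⟨(‖z‖ : 𝕜) / z, ?_, div_mul_cancel₀ _ hz⟩
    rw [norm_div, RCLike.norm_ofReal, abs_norm, div_self (norm_ne_zero_iff.2 hz)]

/-- the mass of a finitely supported function on a set (without the base point) -/
noncomputable def mass (o : M) (u : M →₀ 𝕜) (A : Set M) : ℝ :=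
  ∑ x ∈ u.support, (A \ {o}).indicator (fun x => ‖u x‖) x

theorem mass_nonneg (o : M) (u : M →₀ 𝕜) (A : Set M) : 0 ≤ mass o u A :=
  Finset.sum_nonneg fun _ _ => Set.indicator_nonneg (fun _ _ => norm_nonneg _) _

theorem mass_mono (o : M) (u : M →₀ 𝕜) {A B : Set M} (h : A ⊆ B) : mass o u A ≤ mass o u B := by
  apply Finset.sum_le_sum
  intro x _
  exact Set.indicator_le_indicator_of_subset (Set.sdiff_subset_sdiff_left h) (fun _ => norm_nonneg _) x

/-- bounded functions on uniformly separated spaces are Lipschitz -/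
theorem lip_of_bdd {o : M} {θ : ℝ} (hθ : 0 < θ) (hs : ∀ x y : M, x ≠ y → θ ≤ dist x y) {g : M → 𝕜} (h0 : g o = 0)
    (h1 : ∀ x, ‖g x‖ ≤ 1) : LipO o (2 / θ) g := by
  refine ⟨h0, fun x y => ?_⟩
  by_cases hxy : x = y
  · rw [hxy, sub_self, norm_zero, dist_self, mul_zero]
  · have h2 := hs x y hxy
    have h3 : ‖g x - g y‖ ≤ 2 := (norm_sub_le _ _).trans (by linarith [h1 x, h1 y])
    rw [div_mul_eq_mul_div, le_div_iff₀ hθ]
    nlinarith [norm_nonneg (g x - g y)]

theorem LipO.scale {o : M} {K : ℝ} {g : M → 𝕜} (h : LipO o K g) (c : 𝕜) (L : ℝ) (hc : ‖c‖ * K ≤ L) :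
    LipO o L (fun x => c * g x) := by
  refine ⟨by show c * g o = 0; rw [h.1, mul_zero], fun x y => ?_⟩
  rw [← mul_sub, norm_mul]
  calc ‖c‖ * ‖g x - g y‖ ≤ ‖c‖ * (K * dist x y) := mul_le_mul_of_nonneg_left (h.2 x y) (norm_nonneg _)
    _ = (‖c‖ * K) * dist x y := by ring
    _ ≤ L * dist x y := mul_le_mul_of_nonneg_right hc dist_nonneg

/-- a bound for the pairing with functions of Lipschitz constant one extends to all functions -/
theorem pr_le {o : M} {u : M →₀ 𝕜} {C : ℝ} (hC : ∀ g : M → 𝕜, LipO o 1 g → ‖pr u g‖ ≤ C) {K : ℝ} (hK : 0 < K)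
    {g : M → 𝕜} (hg : LipO o K g) : ‖pr u g‖ ≤ K * C := by
  have h1 : LipO o 1 (fun x => ((K⁻¹ : ℝ) : 𝕜) * g x) := hg.scale _ 1 (by
    rw [RCLike.norm_ofReal, abs_of_pos (by positivity), inv_mul_cancel₀ hK.ne'])
  have h2 := hC _ h1
  rw [pr_smul, norm_mul, RCLike.norm_ofReal, abs_of_pos (by positivity), inv_mul_le_iff₀ hK] at h2
  exact h2

theorem sum_mass_le {o : M} {θ : ℝ} (hθ : 0 < θ) (hs : ∀ x y : M, x ≠ y → θ ≤ dist x y) {u : M →₀ 𝕜} {C : ℝ}
    (hC : ∀ g : M → 𝕜, LipO o 1 g → ‖pr u g‖ ≤ C) (n : ℕ) (A : ℕ → Set M)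
    (hA : ∀ i j, i < j → j < n → Disjoint (A i) (A j)) : ∑ i ∈ range n, mass o u (A i) ≤ 2 / θ * C := by
  classical
  have h1 : ∑ i ∈ range n, mass o u (A i) ≤ mass o u Set.univ := by
    unfold mass
    rw [Finset.sum_comm]
    apply Finset.sum_le_sum
    intro x _
    by_cases hx : ∃ i ∈ range n, x ∈ A i \ {o}
    · obtain ⟨i, hi, hxi⟩ := hx
      rw [Finset.sum_eq_single_of_mem i hi, Set.indicator_of_mem hxi,
        Set.indicator_of_mem (show x ∈ Set.univ \ {o} from ⟨Set.mem_univ _, hxi.2⟩)]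
      intro j hj hne
      apply Set.indicator_of_notMem
      intro hxj
      rw [Finset.mem_range] at hi hj
      rcases Nat.lt_or_ge i j with h | h
      · exact Set.disjoint_left.1 (hA i j h hj) hxi.1 hxj.1
      · exact Set.disjoint_left.1 (hA j i (lt_of_le_of_ne h hne) hi) hxj.1 hxi.1
    · push Not at hx
      rw [Finset.sum_eq_zero (fun i hi => Set.indicator_of_notMem (hx i hi) _)]
      exact Set.indicator_nonneg (fun _ _ => norm_nonneg _) _
  refine h1.trans ?_
  have hph : ∀ z : 𝕜, ∃ c : 𝕜, ‖c‖ = 1 ∧ c * z = (‖z‖ : 𝕜) := exists_phase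
  choose ph ph1 ph2 using hph
  obtain ⟨g, hg⟩ : ∃ g : M → 𝕜, g = fun x => if x = o then 0 else ph (u x) := ⟨_, rfl⟩
  have hgL : LipO o (2 / θ) g := by
    apply lip_of_bdd hθ hs
    · rw [hg]
      exact if_pos rfl
    · intro x
      rw [hg]
      show ‖(if x = o then (0 : 𝕜) else ph (u x))‖ ≤ 1
      split_ifs
      · rw [norm_zero]
        exact zero_le_one
      · exact (ph1 _).le
  have h2 := pr_le hC (by positivity) hgL
  have h3 : pr u g = ((mass o u Set.univ : ℝ) : 𝕜) := by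
    unfold pr mass
    rw [RCLike.ofReal_sum]
    apply Finset.sum_congr rfl
    intro x _
    rw [hg]
    show u x * (if x = o then (0 : 𝕜) else ph (u x)) = _
    by_cases hx : x = o
    · rw [if_pos hx, Set.indicator_of_notMem (fun h => h.2 hx), RCLike.ofReal_zero, mul_zero]
    · rw [if_neg hx, Set.indicator_of_mem (show x ∈ Set.univ \ {o} from ⟨Set.mem_univ _, hx⟩), mul_comm, ph2]
  rw [h3, RCLike.norm_ofReal, abs_of_nonneg (mass_nonneg _ _ _)] at h2
  exact h2

theorem mass_le {o : M} {θ : ℝ} (hθ : 0 < θ) (hs : ∀ x y : M, x ≠ y → θ ≤ dist x y) {u : M →₀ 𝕜} {C : ℝ}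
    (hC : ∀ g : M → 𝕜, LipO o 1 g → ‖pr u g‖ ≤ C) (A : Set M) : mass o u A ≤ 2 / θ * C := by
  have := sum_mass_le hθ hs hC 1 (fun _ => A) (fun i j h1 h2 => by omega)
  simpa using this

/-! ### cut-off functions -/

/-- clamping -/
noncomputable def cl (t : ℝ) : ℝ := max 0 (min 1 t)

theorem cl_nonneg (t : ℝ) : 0 ≤ cl t := le_max_left _ _
theorem cl_le (t : ℝ) : cl t ≤ 1 := max_le zero_le_one (min_le_left _ _)
theorem cl_mono {s t : ℝ} (h : s ≤ t) : cl s ≤ cl t := max_le_max le_rfl (min_le_min le_rfl h)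
theorem cl_zero {t : ℝ} (h : t ≤ 0) : cl t = 0 := max_eq_left ((min_le_right _ _).trans h)
theorem cl_one {t : ℝ} (h : 1 ≤ t) : cl t = 1 := by
  unfold cl
  rw [min_eq_left h]
  exact max_eq_right zero_le_one
theorem cl_lip (s t : ℝ) : |cl s - cl t| ≤ |s - t| := by
  unfold cl
  refine (abs_max_sub_max_le_max _ _ _ _).trans ?_
  rw [sub_self, abs_zero]
  refine max_le (abs_nonneg _) ?_
  refine (abs_min_sub_min_le_max _ _ _ _).trans ?_
  rw [sub_self, abs_zero]
  exact max_le (abs_nonneg _) le_rfl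

/-- the scales -/
noncomputable def sc (θ : ℝ) (k : ℕ) : ℝ := θ / 2 * 2 ^ k

theorem sc_pos {θ : ℝ} (hθ : 0 < θ) (k : ℕ) : 0 < sc θ k := by
  unfold sc
  positivity

theorem sc_succ (θ : ℝ) (k : ℕ) : sc θ (k + 1) = 2 * sc θ k := by
  unfold sc
  rw [pow_succ]
  ring

theorem sc_mono {θ : ℝ} (hθ : 0 < θ) {k l : ℕ} (h : k ≤ l) : sc θ k ≤ sc θ l := by
  unfold sc
  have : (2 : ℝ) ^ k ≤ 2 ^ l := pow_le_pow_right₀ (by norm_num) h
  nlinarith

theorem exists_sc {θ : ℝ} (hθ : 0 < θ) (R : ℝ) : ∃ k, R ≤ sc θ k := by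
  obtain ⟨k, hk⟩ := pow_unbounded_of_one_lt (R / (θ / 2)) (show (1 : ℝ) < 2 by norm_num)
  refine ⟨k, ?_⟩
  rw [div_lt_iff₀ (by positivity)] at hk
  unfold sc
  linarith

/-- outer cut-off functions -/
noncomputable def psi (o : M) (θ : ℝ) (k : ℕ) (x : M) : ℝ := cl (dist x o / sc θ k - 1)

/-- annular cut-off functions -/
noncomputable def phi (o : M) (θ : ℝ) (k : ℕ) (x : M) : ℝ := psi o θ k x - psi o θ (k + 1) x

variable {o : M} {θ : ℝ}

theorem psi_zero (hθ : 0 < θ) {k : ℕ} {x : M} (h : dist x o ≤ sc θ k) : psi o θ k x = 0 := by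
  apply cl_zero
  rw [sub_nonpos, div_le_one (sc_pos hθ k)]
  exact h

theorem psi_one (hθ : 0 < θ) {k : ℕ} {x : M} (h : 2 * sc θ k ≤ dist x o) : psi o θ k x = 1 := by
  apply cl_one
  rw [le_sub_iff_add_le, le_div_iff₀ (sc_pos hθ k)]
  linarith

theorem psi_anti (hθ : 0 < θ) (k : ℕ) (x : M) : psi o θ (k + 1) x ≤ psi o θ k x := by
  apply cl_mono
  have h1 := sc_pos hθ k
  have h2 := sc_succ θ k
  have h3 : dist x o / sc θ (k + 1) ≤ dist x o / sc θ k :=
    div_le_div_of_nonneg_left dist_nonneg h1 (by linarith)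
  linarith

theorem psi_lip (hθ : 0 < θ) (k : ℕ) (x y : M) : |psi o θ k x - psi o θ k y| ≤ dist x y / sc θ k := by
  refine (cl_lip _ _).trans ?_
  have h1 : dist x o / sc θ k - 1 - (dist y o / sc θ k - 1) = (dist x o - dist y o) / sc θ k := by ring
  rw [h1, abs_div, abs_of_pos (sc_pos hθ k)]
  exact div_le_div_of_nonneg_right (abs_dist_sub_le x y o) (sc_pos hθ k).le

theorem phi_nonneg (hθ : 0 < θ) (k : ℕ) (x : M) : 0 ≤ phi o θ k x := sub_nonneg.2 (psi_anti hθ k x)

theorem phi_le (k : ℕ) (x : M) : phi o θ k x ≤ 1 := by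
  unfold phi
  have h1 : psi o θ k x ≤ 1 := cl_le _
  have h2 : 0 ≤ psi o θ (k + 1) x := cl_nonneg _
  linarith

theorem phi_active (hθ : 0 < θ) {k : ℕ} {x : M} (h : phi o θ k x ≠ 0) : sc θ k < dist x o ∧ dist x o < 4 * sc θ k := by
  constructor
  · by_contra hc
    push Not at hc
    apply h
    unfold phi
    rw [psi_zero hθ hc, psi_zero hθ (hc.trans (sc_mono hθ (Nat.le_succ k))), sub_zero]
  · by_contra hc
    push Not at hc
    apply h
    unfold phi
    have h1 := sc_pos hθ k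
    have h2 := sc_succ θ k
    rw [psi_one hθ (by linarith), psi_one hθ (by linarith), sub_self]

theorem phi_lip (hθ : 0 < θ) (k : ℕ) (x y : M) : |phi o θ k x - phi o θ k y| ≤ 3 / 2 * dist x y / sc θ k := by
  have h1 := psi_lip (o := o) hθ k x y
  have h2 := psi_lip (o := o) hθ (k + 1) x y
  have h3 : phi o θ k x - phi o θ k y = (psi o θ k x - psi o θ k y) - (psi o θ (k + 1) x - psi o θ (k + 1) y) := by
    unfold phi
    ring
  rw [h3]
  refine (abs_sub _ _).trans ?_
  rw [sc_succ] at h2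
  have h4 : dist x y / (2 * sc θ k) = 1 / 2 * (dist x y / sc θ k) := by
    have := (sc_pos hθ k).ne'
    field_simp
  rw [h4] at h2
  have h5 : 3 / 2 * dist x y / sc θ k = 3 / 2 * (dist x y / sc θ k) := by ring
  rw [h5]
  linarith

/-- one annular piece of a Lipschitz function -/
theorem phi_mul_lip (hθ : 0 < θ) (k : ℕ) {g : M → 𝕜} (hg : LipO o 1 g) (x y : M) :
    ‖(phi o θ k x : 𝕜) * g x - (phi o θ k y : 𝕜) * g y‖ ≤ 7 * dist x y := by
  have key : ∀ a b : M, dist b o ≤ 4 * sc θ k →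
      ‖(phi o θ k a : 𝕜) * g a - (phi o θ k b : 𝕜) * g b‖ ≤ 7 * dist a b := by
    intro a b hb
    have e1 : (phi o θ k a : 𝕜) * g a - (phi o θ k b : 𝕜) * g b =
        (phi o θ k a : 𝕜) * (g a - g b) + ((phi o θ k a - phi o θ k b : ℝ) : 𝕜) * g b := by
      rw [RCLike.ofReal_sub]
      ring
    rw [e1]
    refine (norm_add_le _ _).trans ?_
    rw [norm_mul, norm_mul, RCLike.norm_ofReal, RCLike.norm_ofReal, abs_of_nonneg (phi_nonneg hθ k a)]
    have h1 := hg.2 a b
    have h2 := hg.base b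
    have h3 := phi_lip (o := o) hθ k a b
    have h4 := phi_le (o := o) (θ := θ) k a
    have h5 := phi_nonneg (o := o) hθ k a
    have h6 : phi o θ k a * ‖g a - g b‖ ≤ 1 * dist a b := by
      have : phi o θ k a * ‖g a - g b‖ ≤ 1 * ‖g a - g b‖ := mul_le_mul_of_nonneg_right h4 (norm_nonneg _)
      linarith
    have h7 : |phi o θ k a - phi o θ k b| * ‖g b‖ ≤ (3 / 2 * dist a b / sc θ k) * (4 * sc θ k) := by
      apply mul_le_mul h3 _ (norm_nonneg _) (by
        have := sc_pos hθ k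
        positivity)
      rw [one_mul] at h2
      exact h2.trans hb
    have h8 : (3 / 2 * dist a b / sc θ k) * (4 * sc θ k) = 6 * dist a b := by
      have := (sc_pos hθ k).ne'
      field_simp
      ring
    rw [h8] at h7
    linarith
  by_cases hy : dist y o ≤ 4 * sc θ k
  · exact key x y hy
  · by_cases hx : dist x o ≤ 4 * sc θ k
    · rw [← norm_neg, neg_sub, dist_comm]
      exact key y x hx
    · have h1 : phi o θ k x = 0 := by
        by_contra hne
        exact hx (phi_active hθ hne).2.le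
      have h2 : phi o θ k y = 0 := by
        by_contra hne
        exact hy (phi_active hθ hne).2.le
      rw [h1, h2, RCLike.ofReal_zero, zero_mul, zero_mul, sub_self, norm_zero]
      positivity

theorem card_active (hθ : 0 < θ) (G : Finset ℕ) (x : M) [DecidablePred (fun k => phi o θ k x ≠ 0)] :
    (G.filter (fun k => phi o θ k x ≠ 0)).card ≤ 2 := by
  classical
  by_cases hne : (G.filter (fun k => phi o θ k x ≠ 0)).Nonempty
  · obtain ⟨m, hm, hmin⟩ := Finset.exists_min_image _ (fun k => k) hne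
    have h1 : G.filter (fun k => phi o θ k x ≠ 0) ⊆ {m, m + 1} := by
      intro k hk
      have h2 := hmin k hk
      have h3 := (phi_active hθ (Finset.mem_filter.1 hk).2).1
      have h4 := (phi_active hθ (Finset.mem_filter.1 hm).2).2
      rw [Finset.mem_insert, Finset.mem_singleton]
      by_contra hc
      push Not at hc
      have h5 : m + 2 ≤ k := by
        have h2' : m ≤ k := h2
        omega
      have h6 := sc_mono hθ h5
      have h7 := sc_succ θ m
      have h8 : sc θ (m + 2) = 2 * sc θ (m + 1) := sc_succ θ (m + 1)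
      linarith
    exact (Finset.card_le_card h1).trans Finset.card_le_two
  · rw [Finset.not_nonempty_iff_eq_empty] at hne
    rw [hne, Finset.card_empty]
    exact Nat.zero_le _

theorem phi_base (hθ : 0 < θ) (k : ℕ) : phi o θ k o = 0 := by
  by_contra hne
  have h1 := (phi_active hθ hne).1
  rw [dist_self] at h1
  exact absurd (sc_pos hθ k) (not_lt.2 h1.le)

/-- sums of annular pieces of Lipschitz functions are Lipschitz -/
theorem sum_phi_lip (hθ : 0 < θ) (G : Finset ℕ) {g : ℕ → M → 𝕜} (hg : ∀ k ∈ G, LipO o 1 (g k)) :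
    LipO o 28 (fun x => ∑ k ∈ G, (phi o θ k x : 𝕜) * g k x) := by
  classical
  constructor
  · apply Finset.sum_eq_zero
    intro k _
    rw [phi_base hθ, RCLike.ofReal_zero, zero_mul]
  · intro x y
    show ‖∑ k ∈ G, (phi o θ k x : 𝕜) * g k x - ∑ k ∈ G, (phi o θ k y : 𝕜) * g k y‖ ≤ _
    rw [← Finset.sum_sub_distrib]
    refine (norm_sum_le _ _).trans ?_
    have h1 : ∀ k ∈ G, ‖(phi o θ k x : 𝕜) * g k x - (phi o θ k y : 𝕜) * g k y‖ ≤
        (if phi o θ k x ≠ 0 then 7 * dist x y else 0) + (if phi o θ k y ≠ 0 then 7 * dist x y else 0) := by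
      intro k hk
      have h2 := phi_mul_lip hθ k (hg k hk) x y
      have h3 : 0 ≤ 7 * dist x y := by positivity
      by_cases hx : phi o θ k x ≠ 0
      · rw [if_pos hx]
        split_ifs
        · linarith
        · linarith
      · by_cases hy : phi o θ k y ≠ 0
        · rw [if_neg hx, if_pos hy]
          linarith
        · rw [if_neg hx, if_neg hy]
          rw [not_not] at hx hy
          rw [hx, hy, RCLike.ofReal_zero, zero_mul, zero_mul, sub_self, norm_zero, add_zero]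
    refine (Finset.sum_le_sum h1).trans ?_
    rw [Finset.sum_add_distrib, ← Finset.sum_filter, ← Finset.sum_filter, Finset.sum_const, Finset.sum_const,
      nsmul_eq_mul, nsmul_eq_mul]
    have h4 : ((G.filter (fun k => phi o θ k x ≠ 0)).card : ℝ) ≤ 2 := by exact_mod_cast card_active hθ G x
    have h5 : ((G.filter (fun k => phi o θ k y ≠ 0)).card : ℝ) ≤ 2 := by exact_mod_cast card_active hθ G y
    have h6 : 0 ≤ 7 * dist x y := by positivity
    nlinarith

theorem sum_phi (K : ℕ) (x : M) : ∑ k ∈ range K, phi o θ k x = psi o θ 0 x - psi o θ K x := by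
  unfold phi
  exact Finset.sum_range_sub' (fun k => psi o θ k x) K

theorem psi_zero_eq_one (hθ : 0 < θ) (hs : ∀ x y : M, x ≠ y → θ ≤ dist x y) {x : M} (hx : x ≠ o) : psi o θ 0 x = 1 := by
  apply psi_one hθ
  have := hs x o hx
  unfold sc
  rw [pow_zero, mul_one]
  linarith

end Q99.FS
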