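import Mathlib

/-!
# Lipschitz-free spaces over the real or complex field; quantities measuring weak non-compactness

The Lipschitz-free space of a pointed metric space is the closed linear span of the evaluation
functionals in the dual of the space of Lipschitz functions vanishing at the base point.
-/

set_option autoImplicit false

noncomputable section

universe v

namespace Q99.FS

/-- The vector space of scalar valued Lipschitz functions on `M` vanishing at the base point `o`. -/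
def lipSub (𝕜 : Type) [RCLike 𝕜] (M : Type v) [MetricSpace M] (o : M) : Submodule 𝕜 (M → 𝕜) where
  carrier := {f | f o = 0 ∧ ∃ K : ℝ, 0 ≤ K ∧ ∀ x y, ‖f x - f y‖ ≤ K * dist x y}
  zero_mem' := ⟨rfl, 0, le_rfl, fun x y => by simp⟩
  add_mem' := by
    rintro f g ⟨hf, K, hK, hfK⟩ ⟨hg, L, hL, hgL⟩
    refine ⟨by simp [hf, hg], K + L, by positivity, fun x y => ?_⟩
    have h1 := hfK x y
    have h2 := hgL x y
    have : (f + g) x - (f + g) y = (f x - f y) + (g x - g y) := by
      simp only [Pi.add_apply]; ring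
    rw [this]
    calc _ ≤ ‖f x - f y‖ + ‖g x - g y‖ := norm_add_le _ _
      _ ≤ _ := by rw [add_mul]; exact add_le_add h1 h2
  smul_mem' := by
    rintro c f ⟨hf, K, hK, hfK⟩
    refine ⟨by simp [hf], ‖c‖ * K, by positivity, fun x y => ?_⟩
    have h1 := hfK x y
    have : (c • f) x - (c • f) y = c * (f x - f y) := by
      simp only [Pi.smul_apply, smul_eq_mul]; ring
    rw [this, norm_mul, mul_assoc]
    exact mul_le_mul_of_nonneg_left h1 (norm_nonneg _)

/-- The space of scalar valued Lipschitz functions on `M` vanishing at `o`, to be normed by the best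
Lipschitz constant. -/
def Lip0 (𝕜 : Type) [RCLike 𝕜] (M : Type v) [MetricSpace M] (o : M) : Type v := ↥(lipSub 𝕜 M o)

variable {𝕜 : Type} [RCLike 𝕜] {M : Type v} [MetricSpace M] {o : M}

/-- The underlying function. -/
def Lip0.fn (f : Lip0 𝕜 M o) : M → 𝕜 := f.1

section raw

/-- pointwise addition -/
local instance lipACG : AddCommGroup (Lip0 𝕜 M o) := Submodule.addCommGroup (lipSub 𝕜 M o)
/-- pointwise scalar multiplication -/
local instance lipMod : Module 𝕜 (Lip0 𝕜 M o) := Submodule.module (lipSub 𝕜 M o)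

/-- The norm: the best Lipschitz constant. -/
instance : Norm (Lip0 𝕜 M o) :=
  ⟨fun f => sInf {K : ℝ | 0 ≤ K ∧ ∀ x y, ‖f.fn x - f.fn y‖ ≤ K * dist x y}⟩

theorem Lip0.ext {f g : Lip0 𝕜 M o} (h : ∀ x, f.fn x = g.fn x) : f = g :=
  Subtype.ext (funext h)

theorem Lip0.fn_add' (f g : Lip0 𝕜 M o) (x : M) : (f + g).fn x = f.fn x + g.fn x := rfl
theorem Lip0.fn_smul' (c : 𝕜) (f : Lip0 𝕜 M o) (x : M) : (c • f).fn x = c * f.fn x := rfl
theorem Lip0.fn_zero' (x : M) : (0 : Lip0 𝕜 M o).fn x = 0 := rfl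
@[simp] theorem Lip0.fn_base (f : Lip0 𝕜 M o) : f.fn o = 0 := f.2.1

/-- Constructor. -/
def Lip0.mk (f : M → 𝕜) (h0 : f o = 0) (K : ℝ) (hK : 0 ≤ K)
    (h : ∀ x y, ‖f x - f y‖ ≤ K * dist x y) : Lip0 𝕜 M o := ⟨f, h0, K, hK, h⟩

@[simp] theorem Lip0.fn_mk (f : M → 𝕜) (h0 : f o = 0) (K : ℝ) (hK : 0 ≤ K)
    (h : ∀ x y, ‖f x - f y‖ ≤ K * dist x y) (x : M) :
    (Lip0.mk f h0 K hK h).fn x = f x := rfl

theorem Lip0.set_nonempty (f : Lip0 𝕜 M o) :
    {K : ℝ | 0 ≤ K ∧ ∀ x y, ‖f.fn x - f.fn y‖ ≤ K * dist x y}.Nonempty := by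
  obtain ⟨K, hK, h⟩ := f.2.2
  exact ⟨K, hK, h⟩

theorem Lip0.norm_le' (f : Lip0 𝕜 M o) {K : ℝ} (hK : 0 ≤ K)
    (h : ∀ x y, ‖f.fn x - f.fn y‖ ≤ K * dist x y) : ‖f‖ ≤ K :=
  csInf_le ⟨0, fun _ h => h.1⟩ ⟨hK, h⟩

theorem Lip0.norm_nonneg' (f : Lip0 𝕜 M o) : 0 ≤ ‖f‖ :=
  le_csInf f.set_nonempty fun _ h => h.1

theorem Lip0.norm_sub_le' (f : Lip0 𝕜 M o) (x y : M) : ‖f.fn x - f.fn y‖ ≤ ‖f‖ * dist x y := by
  rcases eq_or_ne x y with rfl | hxy
  · simp
  · have hd : 0 < dist x y := dist_pos.2 hxy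
    rw [← div_le_iff₀ hd]
    refine le_csInf f.set_nonempty ?_
    rintro K ⟨_, hK⟩
    rw [div_le_iff₀ hd]
    exact hK x y

theorem Lip0.core : NormedSpace.Core 𝕜 (Lip0 𝕜 M o) where
  norm_nonneg f := f.norm_nonneg'
  norm_smul c f := by
    apply le_antisymm
    · refine Lip0.norm_le' _ (mul_nonneg (norm_nonneg _) f.norm_nonneg') fun x y => ?_
      have h1 := f.norm_sub_le' x y
      have : (c • f).fn x - (c • f).fn y = c * (f.fn x - f.fn y) := by
        simp only [Lip0.fn_smul']; ring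
      rw [this, norm_mul, mul_assoc]
      exact mul_le_mul_of_nonneg_left h1 (norm_nonneg _)
    · rcases eq_or_ne c 0 with rfl | hc
      · simp only [norm_zero, zero_mul]; exact Lip0.norm_nonneg' _
      · have hc' : 0 < ‖c‖ := norm_pos_iff.2 hc
        rw [← le_div_iff₀' hc']
        refine Lip0.norm_le' _ (div_nonneg (Lip0.norm_nonneg' _) hc'.le) fun x y => ?_
        have h1 := (c • f).norm_sub_le' x y
        have : (c • f).fn x - (c • f).fn y = c * (f.fn x - f.fn y) := by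
          simp only [Lip0.fn_smul']; ring
        rw [this, norm_mul] at h1
        rw [div_mul_eq_mul_div, le_div_iff₀ hc']
        rw [mul_comm]
        exact h1
  norm_triangle f g := by
    refine Lip0.norm_le' _ (add_nonneg f.norm_nonneg' g.norm_nonneg') fun x y => ?_
    have h1 := f.norm_sub_le' x y
    have h2 := g.norm_sub_le' x y
    have : (f + g).fn x - (f + g).fn y = (f.fn x - f.fn y) + (g.fn x - g.fn y) := by
      simp only [Lip0.fn_add']; ring
    rw [this]
    calc _ ≤ ‖f.fn x - f.fn y‖ + ‖g.fn x - g.fn y‖ := norm_add_le _ _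
      _ ≤ _ := by rw [add_mul]; exact add_le_add h1 h2
  norm_eq_zero_iff f := by
    constructor
    · intro h
      apply Lip0.ext
      intro x
      have h1 := f.norm_sub_le' x o
      rw [h, zero_mul, Lip0.fn_base, sub_zero] at h1
      exact norm_le_zero_iff.1 h1
    · rintro rfl
      apply le_antisymm _ (Lip0.norm_nonneg' _)
      refine Lip0.norm_le' _ le_rfl fun x y => by simp [Lip0.fn_zero']

instance : NormedAddCommGroup (Lip0 𝕜 M o) := NormedAddCommGroup.ofCore (Lip0.core (𝕜 := 𝕜) (M := M) (o := o))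
instance : NormedSpace 𝕜 (Lip0 𝕜 M o) := NormedSpace.ofCore (Lip0.core (𝕜 := 𝕜) (M := M) (o := o))

end raw

theorem Lip0.norm_fn_le (f : Lip0 𝕜 M o) (x : M) : ‖f.fn x‖ ≤ ‖f‖ * dist x o := by
  have := f.norm_sub_le' x o
  rwa [Lip0.fn_base, sub_zero] at this

/-- The evaluation functional at `x`. -/
def dlt (𝕜 : Type) [RCLike 𝕜] (M : Type v) [MetricSpace M] (o : M) (x : M) : StrongDual 𝕜 (Lip0 𝕜 M o) :=
  LinearMap.mkContinuous
    { toFun := fun f => f.fn x
      map_add' := fun _ _ => rfl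
      map_smul' := fun _ _ => rfl } (dist x o) (fun f => by
        rw [mul_comm]
        exact f.norm_fn_le x)

@[simp] theorem dlt_apply (x : M) (f : Lip0 𝕜 M o) : dlt 𝕜 M o x f = f.fn x := rfl

/-- The Lipschitz-free space: the closed linear span of the evaluation functionals in the dual. -/
def LFree (𝕜 : Type) [RCLike 𝕜] (M : Type v) [MetricSpace M] (o : M) : Submodule 𝕜 (StrongDual 𝕜 (Lip0 𝕜 M o)) :=
  (Submodule.span 𝕜 (Set.range (dlt 𝕜 M o))).topologicalClosure

/-- The Lipschitz-free space, as a normed space. -/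
def FreeSp (𝕜 : Type) [RCLike 𝕜] (M : Type v) [MetricSpace M] (o : M) : Type v := ↥(LFree 𝕜 M o)

instance : NormedAddCommGroup (FreeSp 𝕜 M o) := Submodule.normedAddCommGroup (LFree 𝕜 M o)
instance : NormedSpace 𝕜 (FreeSp 𝕜 M o) := Submodule.normedSpace (LFree 𝕜 M o)

theorem dlt_mem (x : M) : dlt 𝕜 M o x ∈ LFree 𝕜 M o :=
  Submodule.le_topologicalClosure _ (Submodule.subset_span ⟨x, rfl⟩)

/-- The evaluation functional at `x`, as a member of the Lipschitz-free space. -/
def del (𝕜 : Type) [RCLike 𝕜] {M : Type v} [MetricSpace M] (o x : M) : FreeSp 𝕜 M o := ⟨dlt 𝕜 M o x, dlt_mem x⟩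


/-! ### Quantities in a normed space -/

section quantities

open Filter Topology ENNReal

variable (𝕜 : Type) [RCLike 𝕜] {X : Type v} [NormedAddCommGroup X] [NormedSpace 𝕜 X]

/-- The oscillation of a sequence: `inf_n sup_{k,l ≥ n} ‖x k - x l‖`. -/
def ca (x : ℕ → X) : ℝ≥0∞ := ⨅ n : ℕ, ⨆ k : ℕ, ⨆ _ : n ≤ k, ⨆ l : ℕ, ⨆ _ : n ≤ l, ‖x k - x l‖ₑ

/-- The weak oscillation of a sequence:
`sup_{f in the dual unit ball} inf_n sup_{k,l ≥ n} |f (x k) - f (x l)|`. -/
def delta (x : ℕ → X) : ℝ≥0∞ :=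
  ⨆ f : StrongDual 𝕜 X, ⨆ _ : ‖f‖ ≤ 1, ⨅ n : ℕ, ⨆ k : ℕ, ⨆ _ : n ≤ k, ⨆ l : ℕ, ⨆ _ : n ≤ l, ‖f (x k) - f (x l)‖ₑ

/-- The weak-star cluster points, in the bidual, of a sequence. -/
def clust (x : ℕ → X) : Set (StrongDual 𝕜 (StrongDual 𝕜 X)) :=
  {a | MapClusterPt (StrongDual.toWeakDual a) atTop
    (fun k => StrongDual.toWeakDual (NormedSpace.inclusionInDoubleDual 𝕜 X (x k)))}

variable (X) in
/-- The canonical image of the space in its bidual. -/
def canon : Set (StrongDual 𝕜 (StrongDual 𝕜 X)) := Set.range (NormedSpace.inclusionInDoubleDual 𝕜 X)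

/-- The measure of weak non-compactness of a sequence: the supremum over the subsequences of the
distance from the set of the weak-star cluster points to the space. -/
def wck (x : ℕ → X) : ℝ≥0∞ :=
  ⨆ σ : ℕ → ℕ, ⨆ _ : StrictMono σ, ⨅ a ∈ clust 𝕜 (x ∘ σ), Metric.infEDist a (canon 𝕜 X)

/-- The weak-star closure, in the bidual, of a set. -/
def wclosure (A : Set X) : Set (StrongDual 𝕜 (StrongDual 𝕜 X)) :=
  {a | StrongDual.toWeakDual a ∈
    closure ((fun x : X => StrongDual.toWeakDual (NormedSpace.inclusionInDoubleDual 𝕜 X x)) '' A)}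

/-- The measure `wk`: the largest distance of a point of the weak-star closure to the space. -/
def wk (A : Set X) : ℝ≥0∞ := ⨆ a ∈ wclosure 𝕜 A, Metric.infEDist a (canon 𝕜 X)

/-- De Blasi's measure: the infimum, over the nonempty weakly compact sets `K`, of the largest distance
of a point of `A` to `K`. -/
def omega (A : Set X) : ℝ≥0∞ :=
  ⨅ K : Set X, ⨅ _ : K.Nonempty, ⨅ _ : IsCompact (toWeakSpace 𝕜 X '' K), ⨆ a ∈ A, Metric.infEDist a K

end quantities

end Q99.FS
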