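import Pool.Agent.Q99.FS.Inner

/-!
# The gluing theorem
-/

set_option autoImplicit false
set_option linter.unusedSectionVars false
open Filter Topology Finset

namespace Q99.FS

universe v

variable {𝕜 : Type} [RCLike 𝕜] {M : Type v} [MetricSpace M] {o : M} {θ : ℝ}

theorem sum_phi_lip' (hθ : 0 < θ) (G : Finset ℕ) {K : ℝ} (hK : 0 < K) {g : ℕ → M → 𝕜} (hg : ∀ k ∈ G, LipO o K (g k)) :
    LipO o (28 * K) (fun x => ∑ k ∈ G, (phi o θ k x : 𝕜) * g k x) := by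
  have h1 : ∀ k ∈ G, LipO o 1 (fun x => ((K⁻¹ : ℝ) : 𝕜) * g k x) := fun k hk => (hg k hk).scale _ 1 (by
    rw [RCLike.norm_ofReal, abs_of_pos (by positivity), inv_mul_cancel₀ hK.ne'])
  have h2 := (sum_phi_lip hθ G h1).scale ((K : ℝ) : 𝕜) (28 * K) (by
    rw [RCLike.norm_ofReal, abs_of_pos hK, mul_comm])
  have h3 : (fun x => ∑ k ∈ G, (phi o θ k x : 𝕜) * g k x) =
      fun x => ((K : ℝ) : 𝕜) * ∑ k ∈ G, (phi o θ k x : 𝕜) * (((K⁻¹ : ℝ) : 𝕜) * g k x) := by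
    funext x
    rw [Finset.mul_sum]
    apply Finset.sum_congr rfl
    intro k _
    have h4 : ((K : ℝ) : 𝕜) * ((K⁻¹ : ℝ) : 𝕜) = 1 := by
      rw [← RCLike.ofReal_mul, mul_inv_cancel₀ hK.ne', RCLike.ofReal_one]
    calc (phi o θ k x : 𝕜) * g k x = (((K : ℝ) : 𝕜) * ((K⁻¹ : ℝ) : 𝕜)) * ((phi o θ k x : 𝕜) * g k x) := by
          rw [h4, one_mul]
      _ = _ := by ring
  rw [h3]
  exact h2

theorem phi_eq_zero (hθ : 0 < θ) {k : ℕ} {x : M} (h : dist x o ≤ sc θ k) : phi o θ k x = 0 := by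
  by_contra hne
  exact absurd (phi_active hθ hne).1 (not_lt.2 h)

/-- partial sums stabilize -/
theorem sum_stable (hθ : 0 < θ) {m n : ℕ} {x : M} (hm : dist x o ≤ sc θ m) (hn : dist x o ≤ sc θ n) (G : ℕ → M → 𝕜) :
    ∑ k ∈ range m, (phi o θ k x : 𝕜) * G k x = ∑ k ∈ range n, (phi o θ k x : 𝕜) * G k x := by
  have key : ∀ m n : ℕ, m ≤ n → dist x o ≤ sc θ m →
      ∑ k ∈ range m, (phi o θ k x : 𝕜) * G k x = ∑ k ∈ range n, (phi o θ k x : 𝕜) * G k x := by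
    intro m n hmn hm
    apply Finset.sum_subset (Finset.range_subset_range.2 hmn)
    intro k _ hk
    rw [Finset.mem_range, not_lt] at hk
    rw [phi_eq_zero hθ (hm.trans (sc_mono hθ hk)), RCLike.ofReal_zero, zero_mul]
  rcases le_total m n with h | h
  · exact key m n h hm
  · exact (key n m h hn).symm

/-- gluing along the annuli -/
theorem glue_sum (hθ : 0 < θ) {K : ℝ} (hK : 0 < K) (G : ℕ → M → 𝕜) (hG : ∀ k, LipO o K (G k)) :
    ∃ f : M → 𝕜, LipO o (28 * K) f ∧ ∀ n x, dist x o ≤ sc θ n → f x = ∑ k ∈ range n, (phi o θ k x : 𝕜) * G k x := by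
  choose κ hκ using fun x : M => exists_sc hθ (dist x o)
  have h1 : ∀ n x, dist x o ≤ sc θ n → (fun x => ∑ k ∈ range (κ x), (phi o θ k x : 𝕜) * G k x) x =
      ∑ k ∈ range n, (phi o θ k x : 𝕜) * G k x := fun n x hn => sum_stable hθ (hκ x) hn G
  refine ⟨fun x => ∑ k ∈ range (κ x), (phi o θ k x : 𝕜) * G k x, ⟨?_, fun x y => ?_⟩, h1⟩
  · apply Finset.sum_eq_zero
    intro k _
    rw [phi_base hθ, RCLike.ofReal_zero, zero_mul]
  · rw [h1 (max (κ x) (κ y)) x ((hκ x).trans (sc_mono hθ (le_max_left _ _))),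
      h1 (max (κ x) (κ y)) y ((hκ y).trans (sc_mono hθ (le_max_right _ _)))]
    exact (sum_phi_lip' hθ (range (max (κ x) (κ y))) hK (fun k _ => hG k)).2 x y

/-- a Lipschitz function is the sum of its annular pieces -/
theorem decomp (hθ : 0 < θ) (hs : ∀ x y : M, x ≠ y → θ ≤ dist x y) {g : M → 𝕜} (hg : g o = 0) {n : ℕ} {x : M}
    (hx : dist x o ≤ sc θ n) : g x = ∑ k ∈ range n, (phi o θ k x : 𝕜) * g x := by
  by_cases hxo : x = o
  · rw [hxo, hg]
    simp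
  · rw [← Finset.sum_mul, ← RCLike.ofReal_sum, sum_phi, psi_zero hθ hx, psi_zero_eq_one hθ hs hxo, sub_zero,
      RCLike.ofReal_one, one_mul]

/-- the index of the block -/
theorem block {κ : ℕ → ℕ} (hκ : StrictMono κ) (k : ℕ) (hk : κ 0 ≤ k) : ∃ i, κ i ≤ k ∧ k < κ (i + 1) := by
  have hex : ∃ i, k < κ (i + 1) := ⟨k, lt_of_lt_of_le (Nat.lt_succ_self k) (hκ.id_le (k + 1))⟩
  refine ⟨Nat.find hex, ?_, Nat.find_spec hex⟩
  by_contra hc
  push Not at hc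
  rcases Nat.eq_zero_or_pos (Nat.find hex) with h | h
  · rw [h] at hc
    omega
  · obtain ⟨m, hm⟩ := Nat.exists_eq_succ_of_ne_zero h.ne'
    rw [hm] at hc
    exact Nat.find_min hex (by omega) hc

theorem block_unique {κ : ℕ → ℕ} (hκ : StrictMono κ) {k i i' : ℕ} (h1 : κ i ≤ k) (h2 : k < κ (i + 1))
    (h3 : κ i' ≤ k) (h4 : k < κ (i' + 1)) : i = i' := by
  rcases Nat.lt_trichotomy i i' with h | h | h
  · have := hκ.monotone (show i + 1 ≤ i' from h)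
    omega
  · exact h
  · have := hκ.monotone (show i' + 1 ≤ i from h)
    omega

/-- the error in the bounded region -/
theorem inner_est (hθ : 0 < θ) (hs : ∀ x y : M, x ≠ y → θ ≤ dist x y) {u : M →₀ 𝕜} {K : ℕ} {P : Finset M}
    {f h : M → 𝕜} (hf : LipO o 14 f) (hh : LipO o 1 h) {η : ℝ} (hη : 0 ≤ η) (hP : ∀ p ∈ P, ‖f p - h p‖ ≤ η)
    (L : ℕ) (F : Finset M)
    (hA : ∀ x ∈ u.support, dist x o < 2 * sc θ K → x ∉ P →
      (∀ l, l < L → x ∈ Nb (sc θ l) F → x ∈ Nb (sc θ l) P) → f x = h x) :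
    ‖∑ k ∈ range K, pr u (fun x => (phi o θ k x : 𝕜) * (f x - h x))‖ ≤
      η * mass o u Set.univ + 15 * (2 * sc θ K) * ∑ l ∈ range L, mass o u (Nb (sc θ l) F \ Nb (sc θ l) P) := by
  classical
  rw [← pr_sum]
  have h1 : pr u (fun x => ∑ k ∈ range K, (phi o θ k x : 𝕜) * (f x - h x)) =
      pr u (fun x => ((psi o θ 0 x - psi o θ K x : ℝ) : 𝕜) * (f x - h x)) := by
    apply pr_congr
    intro x _
    rw [← Finset.sum_mul, ← RCLike.ofReal_sum, sum_phi]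
  rw [h1]
  unfold pr
  refine (norm_sum_le _ _).trans ?_
  unfold mass
  rw [Finset.sum_comm, Finset.mul_sum, Finset.mul_sum, ← Finset.sum_add_distrib]
  apply Finset.sum_le_sum
  intro x hx
  rw [norm_mul, norm_mul, RCLike.norm_ofReal]
  have hR := sc_pos hθ K
  have hnn : 0 ≤ η * (Set.univ \ {o}).indicator (fun x => ‖u x‖) x :=
    mul_nonneg hη (Set.indicator_nonneg (fun _ _ => norm_nonneg _) _)
  have hnn2 : 0 ≤ 15 * (2 * sc θ K) *
      ∑ l ∈ range L, ((Nb (sc θ l) F \ Nb (sc θ l) P) \ {o}).indicator (fun x => ‖u x‖) x :=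
    mul_nonneg (by positivity) (Finset.sum_nonneg fun _ _ => Set.indicator_nonneg (fun _ _ => norm_nonneg _) _)
  have hw : |psi o θ 0 x - psi o θ K x| ≤ 1 := by
    rw [abs_le]
    have a1 : psi o θ 0 x ≤ 1 := cl_le _
    have a2 : 0 ≤ psi o θ 0 x := cl_nonneg _
    have a3 : psi o θ K x ≤ 1 := cl_le _
    have a4 : 0 ≤ psi o θ K x := cl_nonneg _
    constructor <;> linarith
  by_cases hxo : x = o
  · have : f x - h x = 0 := by rw [hxo, hf.1, hh.1, sub_self]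
    rw [this, norm_zero, mul_zero, mul_zero]
    linarith
  by_cases hxR : 2 * sc θ K ≤ dist x o
  · rw [psi_one hθ hxR, psi_zero_eq_one hθ hs hxo, sub_self, abs_zero, zero_mul, mul_zero]
    linarith
  push Not at hxR
  by_cases hxP : x ∈ P
  · have h2 := hP x hxP
    rw [Set.indicator_of_mem (show x ∈ Set.univ \ {o} from ⟨Set.mem_univ _, hxo⟩)]
    have h3 : |psi o θ 0 x - psi o θ K x| * ‖f x - h x‖ ≤ 1 * η :=
      mul_le_mul hw h2 (norm_nonneg _) zero_le_one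
    have h4 : ‖u x‖ * (|psi o θ 0 x - psi o θ K x| * ‖f x - h x‖) ≤ ‖u x‖ * (1 * η) :=
      mul_le_mul_of_nonneg_left h3 (norm_nonneg _)
    linarith
  by_cases hxA : ∀ l, l < L → x ∈ Nb (sc θ l) F → x ∈ Nb (sc θ l) P
  · rw [hA x hx hxR hxP hxA, sub_self, norm_zero, mul_zero, mul_zero]
    linarith
  · push Not at hxA
    obtain ⟨l, hl, hl1, hl2⟩ := hxA
    have h2 : ‖u x‖ ≤ ∑ l ∈ range L, ((Nb (sc θ l) F \ Nb (sc θ l) P) \ {o}).indicator (fun x => ‖u x‖) x := by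
      have h3 : ‖u x‖ = ((Nb (sc θ l) F \ Nb (sc θ l) P) \ {o}).indicator (fun x => ‖u x‖) x := by
        rw [Set.indicator_of_mem]
        exact ⟨⟨hl1, hl2⟩, hxo⟩
      rw [h3]
      exact Finset.single_le_sum (f := fun l => ((Nb (sc θ l) F \ Nb (sc θ l) P) \ {o}).indicator (fun x => ‖u x‖) x)
        (fun _ _ => Set.indicator_nonneg (fun _ _ => norm_nonneg _) _) (Finset.mem_range.2 hl)
    have h4 : ‖f x - h x‖ ≤ 15 * (2 * sc θ K) := by
      have a1 := norm_sub_le (f x) (h x)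
      have a2 := hf.base x
      have a3 := hh.base x
      linarith
    have h5 : |psi o θ 0 x - psi o θ K x| * ‖f x - h x‖ ≤ 1 * (15 * (2 * sc θ K)) :=
      mul_le_mul hw h4 (norm_nonneg _) zero_le_one
    have h6 : ‖u x‖ * (|psi o θ 0 x - psi o θ K x| * ‖f x - h x‖) ≤ ‖u x‖ * (1 * (15 * (2 * sc θ K))) :=
      mul_le_mul_of_nonneg_left h5 (norm_nonneg _)
    have h7 : 15 * (2 * sc θ K) * ‖u x‖ ≤ 15 * (2 * sc θ K) *
      ∑ l ∈ range L, ((Nb (sc θ l) F \ Nb (sc θ l) P) \ {o}).indicator (fun x => ‖u x‖) x :=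
      mul_le_mul_of_nonneg_left h2 (by positivity)
    linarith

/-- the gluing theorem -/
theorem glue (hθ : 0 < θ) (hs : ∀ x y : M, x ≠ y → θ ≤ dist x y) {u : ℕ → M →₀ 𝕜} {C : ℝ}
    (hC : ∀ j, ∀ g : M → 𝕜, LipO o 1 g → ‖pr (u j) g‖ ≤ C) {h : ℕ → M → 𝕜} (hh : ∀ j, LipO o 1 (h j))
    {η : ℝ} (hη : 0 < η) :
    ∃ (f : M → 𝕜) (j : ℕ → ℕ), LipO o 392 f ∧ StrictMono j ∧
      ∀ i, ‖pr (u (j i)) f - pr (u (j i)) (h (j i))‖ ≤ η := by
  classical
  have hC0 : 0 ≤ C := (norm_nonneg _).trans (hC 0 (fun _ => 0) ⟨rfl, fun x y => by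
    rw [sub_self, norm_zero]
    positivity⟩)
  set 𝓤 : Ultrafilter ℕ := hyperfilter ℕ with h𝓤
  have hfree : ∀ n, ∀ᶠ j in (𝓤 : Filter ℕ), n < j := fun n =>
    (Nat.cofinite_eq_atTop ▸ hyperfilter_le_cofinite : (𝓤 : Filter ℕ) ≤ atTop) (eventually_gt_atTop n)
  obtain ⟨K, hK⟩ := step_one hθ 𝓤 hC (show 0 < η / 4 by positivity)
  have hscK := sc_pos hθ K
  obtain ⟨L, hL⟩ := exists_sc hθ (2 * (2 * sc θ K))
  have hB1 : 0 < 2 / θ * C + 1 := by positivity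
  obtain ⟨η₁, hη₁⟩ : ∃ η₁, η₁ = min θ (η / 4 / (2 / θ * C + 1)) := ⟨_, rfl⟩
  have hη₁pos : 0 < η₁ := by
    rw [hη₁]
    exact lt_min hθ (by positivity)
  have hη₁θ : η₁ ≤ θ := by
    rw [hη₁]
    exact min_le_left _ _
  have hη₁b : η₁ * (2 / θ * C) ≤ η / 4 := by
    have h1 : η₁ ≤ η / 4 / (2 / θ * C + 1) := by
      rw [hη₁]
      exact min_le_right _ _
    rw [le_div_iff₀ hB1] at h1
    nlinarith
  have hB2 : 0 < 15 * (2 * sc θ K) * (L + 1 : ℕ) + 1 := by positivity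
  obtain ⟨τ, hτ⟩ : ∃ τ, τ = η / 4 / (15 * (2 * sc θ K) * (L + 1 : ℕ) + 1) := ⟨_, rfl⟩
  have hτpos : 0 < τ := by
    rw [hτ]
    positivity
  have hτb : 15 * (2 * sc θ K) * ((L + 1 : ℕ) * τ) ≤ η / 4 := by
    have h1 : τ * (15 * (2 * sc θ K) * (L + 1 : ℕ) + 1) = η / 4 := by
      rw [hτ, div_mul_cancel₀ _ hB2.ne']
    nlinarith
  obtain ⟨P, hoP, hP⟩ := step_two' hθ hs 𝓤 hC (L + 1) hτpos
  obtain ⟨g, hg, hg'⟩ := step_three 𝓤 hh
  have hcl : ∀ᶠ j in (𝓤 : Filter ℕ), ∀ p ∈ P, ‖h j p - g p‖ ≤ η₁ := by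
    rw [Filter.eventually_all_finset]
    intro p _
    have h1 := (Metric.tendsto_nhds.1 (hg' p)) η₁ hη₁pos
    refine h1.mono fun j hj => ?_
    rw [dist_eq_norm] at hj
    exact hj.le
  obtain ⟨j, κ, F, hj, hκ, hκ0, hgood, hsF, hsκ⟩ := select hθ 𝓤 hfree u K
    (fun K' F j => (∀ g : ℕ → M → 𝕜, (∀ k, LipO o 1 (g k)) →
      ‖∑ k ∈ Ico K K', pr (u j) (fun x => (phi o θ k x : 𝕜) * g k x)‖ ≤ η / 4) ∧
      (∀ l ∈ range (L + 1), mass o (u j) (Nb (sc θ l) F \ Nb (sc θ l) P) ≤ τ) ∧ (∀ p ∈ P, ‖h j p - g p‖ ≤ η₁)) (by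
    intro K' F hKK
    refine Filter.Eventually.and ?_ ((hP F).and hcl)
    rcases Nat.eq_or_lt_of_le hKK with h1 | h1
    · subst h1
      apply Filter.Eventually.of_forall
      intro j g _
      rw [Finset.Ico_self, Finset.sum_empty, norm_zero]
      positivity
    · exact hK K' h1)
  obtain ⟨A, hA⟩ : ∃ A : ℕ → Set M, A = fun i => {x | x ∈ (u (j i)).support ∧ dist x o < 2 * sc θ K ∧ x ∉ P ∧
      ∀ l, l < L + 1 → x ∈ Nb (sc θ l) (F i) → x ∈ Nb (sc θ l) P} := ⟨_, rfl⟩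
  obtain ⟨fA, hfA, hfP, hfAA⟩ := inner_fun hθ hs hoP hg (h := fun i => h (j i)) (fun i => hh (j i)) hL
    F A
    (fun i x hx => by
      rw [hA] at hx
      exact hx.2.1)
    (fun i x hx => by
      rw [hA] at hx
      exact hx.2.2.1)
    (fun i x hx l hl hn => by
      rw [hA] at hx
      exact hx.2.2.2 l (by omega) hn)
    (fun i i' hii x hx => by
      rw [hA] at hx
      exact hsF i i' hii hx.1)
    (fun i p hp => ((hgood i).2.2 p hp).trans hη₁θ)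
  choose! ι hι1 hι2 using fun k (hk : κ 0 ≤ k) => block hκ k hk
  obtain ⟨G, hGdef⟩ : ∃ G : ℕ → M → 𝕜, G = fun k => if k < K then fA else h (j (ι k)) := ⟨_, rfl⟩
  have hG14 : ∀ k, LipO o 14 (G k) := by
    intro k
    rw [hGdef]
    show LipO o 14 (if k < K then fA else h (j (ι k)))
    split_ifs
    · exact hfA
    · refine ⟨(hh _).1, fun x y => ((hh _).2 x y).trans ?_⟩
      have : 0 ≤ dist x y := dist_nonneg
      linarith
  obtain ⟨f, hf1, hf2⟩ := glue_sum hθ (by norm_num : (0 : ℝ) < 14) G hG14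
  refine ⟨f, j, by norm_num at hf1; exact hf1, hj, fun i => ?_⟩
  have hKi : K ≤ κ i := by
    rw [← hκ0]
    exact hκ.monotone (Nat.zero_le i)
  have hii : κ i ≤ κ (i + 1) := (hκ (Nat.lt_succ_self i)).le
  -- expand both pairings
  have e1 : pr (u (j i)) f = ∑ k ∈ range (κ (i + 1)), pr (u (j i)) (fun x => (phi o θ k x : 𝕜) * G k x) := by
    rw [← pr_sum]
    exact pr_congr _ fun x hx => hf2 _ x (hsκ i x hx)
  have e2 : pr (u (j i)) (h (j i)) =
      ∑ k ∈ range (κ (i + 1)), pr (u (j i)) (fun x => (phi o θ k x : 𝕜) * h (j i) x) := by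
    rw [← pr_sum]
    exact pr_congr _ fun x hx => decomp hθ hs (hh (j i)).1 (hsκ i x hx)
  rw [e1, e2, ← Finset.sum_range_add_sum_Ico _ hii, ← Finset.sum_range_add_sum_Ico _ hKi,
    ← Finset.sum_range_add_sum_Ico (fun k => pr (u (j i)) (fun x => (phi o θ k x : 𝕜) * h (j i) x)) hii,
    ← Finset.sum_range_add_sum_Ico (fun k => pr (u (j i)) (fun x => (phi o θ k x : 𝕜) * h (j i) x)) hKi]
  have e3 : ∑ k ∈ Ico (κ i) (κ (i + 1)), pr (u (j i)) (fun x => (phi o θ k x : 𝕜) * G k x) =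
      ∑ k ∈ Ico (κ i) (κ (i + 1)), pr (u (j i)) (fun x => (phi o θ k x : 𝕜) * h (j i) x) := by
    apply Finset.sum_congr rfl
    intro k hk
    rw [Finset.mem_Ico] at hk
    have hk0 : κ 0 ≤ k := (hκ.monotone (Nat.zero_le i)).trans hk.1
    have h1 : G k = h (j i) := by
      rw [hGdef]
      show (if k < K then fA else h (j (ι k))) = h (j i)
      rw [if_neg (by omega), block_unique hκ (hι1 k hk0) (hι2 k hk0) hk.1 hk.2]
    rw [h1]
  have e4 : ∑ k ∈ range K, pr (u (j i)) (fun x => (phi o θ k x : 𝕜) * G k x) -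
      ∑ k ∈ range K, pr (u (j i)) (fun x => (phi o θ k x : 𝕜) * h (j i) x) =
      ∑ k ∈ range K, pr (u (j i)) (fun x => (phi o θ k x : 𝕜) * (fA x - h (j i) x)) := by
    rw [← Finset.sum_sub_distrib]
    apply Finset.sum_congr rfl
    intro k hk
    rw [Finset.mem_range] at hk
    rw [← pr_sub]
    apply pr_congr
    intro x _
    have h1 : G k = fA := by
      rw [hGdef]
      exact if_pos hk
    rw [h1]
    ring
  have e5 : ∀ a b c a' b' c' : 𝕜, c = c' → (a + b + c) - (a' + b' + c') = (a - a') + b - b' := by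
    intro a b c a' b' c' hc
    rw [hc]
    ring
  rw [e5 _ _ _ _ _ _ e3, e4]
  have b1 := inner_est hθ hs (u := u (j i)) (K := K) (P := P) (f := fA) (h := h (j i)) hfA (hh (j i)) hη₁pos.le
    (fun p hp => by
      rw [hfP p hp, ← norm_neg, neg_sub]
      exact (hgood i).2.2 p hp) (L + 1) (F i)
    (fun x hx hxR hxP hxA => hfAA i x (by
      rw [hA]
      exact ⟨hx, hxR, hxP, hxA⟩))
  have b2 : ‖∑ k ∈ Ico K (κ i), pr (u (j i)) (fun x => (phi o θ k x : 𝕜) * G k x)‖ ≤ η / 4 := by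
    have h1 := (hgood i).1 (fun k => h (j (ι k))) (fun k => hh _)
    have h2 : ∑ k ∈ Ico K (κ i), pr (u (j i)) (fun x => (phi o θ k x : 𝕜) * G k x) =
        ∑ k ∈ Ico K (κ i), pr (u (j i)) (fun x => (phi o θ k x : 𝕜) * h (j (ι k)) x) := by
      apply Finset.sum_congr rfl
      intro k hk
      rw [Finset.mem_Ico] at hk
      have h3 : G k = h (j (ι k)) := by
        rw [hGdef]
        exact if_neg (by omega)
      rw [h3]
    rw [h2]
    exact h1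
  have b3 : ‖∑ k ∈ Ico K (κ i), pr (u (j i)) (fun x => (phi o θ k x : 𝕜) * h (j i) x)‖ ≤ η / 4 :=
    (hgood i).1 (fun _ => h (j i)) (fun _ => hh _)
  have b4 : η₁ * mass o (u (j i)) Set.univ ≤ η / 4 :=
    (mul_le_mul_of_nonneg_left (mass_le hθ hs (hC (j i)) Set.univ) hη₁pos.le).trans hη₁b
  have b5 : 15 * (2 * sc θ K) * ∑ l ∈ range (L + 1), mass o (u (j i)) (Nb (sc θ l) (F i) \ Nb (sc θ l) P) ≤ η / 4 := by
    have h1 : ∑ l ∈ range (L + 1), mass o (u (j i)) (Nb (sc θ l) (F i) \ Nb (sc θ l) P) ≤ (L + 1 : ℕ) * τ := by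
      have h2 := Finset.sum_le_card_nsmul (range (L + 1)) _ τ ((hgood i).2.1)
      rw [card_range, nsmul_eq_mul] at h2
      exact h2
    exact (mul_le_mul_of_nonneg_left h1 (by positivity)).trans hτb
  refine (norm_sub_le _ _).trans ?_
  refine (add_le_add_left (norm_add_le _ _) _).trans ?_
  linarith

end Q99.FS
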