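import Pool.Agent.Q99.FS.Defs
import Pool.Agent.Q99.FS.Glue

/-!
# The selection property of Lipschitz-free spaces of uniformly separated spaces
-/

set_option autoImplicit false
set_option linter.unusedSectionVars false
open Filter Topology Finset

namespace Q99.FS

universe v

/-- the selection property -/
def PropS (𝕜 : Type) [RCLike 𝕜] (X : Type v) [NormedAddCommGroup X] [NormedSpace 𝕜 X] (K : ℝ) : Prop :=
  ∀ (u : ℕ → X) (C : ℝ), (∀ j, ‖u j‖ ≤ C) → ∀ h : ℕ → StrongDual 𝕜 X, (∀ j, ‖h j‖ ≤ 1) → ∀ η : ℝ, 0 < η →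
    ∃ (f : StrongDual 𝕜 X) (j : ℕ → ℕ), ‖f‖ ≤ K ∧ StrictMono j ∧ ∀ i, ‖f (u (j i)) - h (j i) (u (j i))‖ ≤ η

variable {𝕜 : Type} [RCLike 𝕜] {M : Type v} [MetricSpace M] {o : M} {θ : ℝ}

/-- The inclusion into the dual. -/
noncomputable def inc (𝕜 : Type) [RCLike 𝕜] (M : Type v) [MetricSpace M] (o : M) :
    FreeSp 𝕜 M o →ₗ[𝕜] StrongDual 𝕜 (Lip0 𝕜 M o) := (LFree 𝕜 M o).subtype

/-- The functional given by a Lipschitz function. -/
noncomputable def ev (g : Lip0 𝕜 M o) : StrongDual 𝕜 (FreeSp 𝕜 M o) :=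
  LinearMap.mkContinuous
    { toFun := fun μ => inc 𝕜 M o μ g
      map_add' := fun _ _ => rfl
      map_smul' := fun _ _ => rfl } ‖g‖ (fun μ => by
        rw [mul_comm]
        exact (inc 𝕜 M o μ).le_opNorm g)

theorem ev_del (g : Lip0 𝕜 M o) (x : M) : ev g (del 𝕜 o x) = g.fn x := rfl

theorem norm_ev_le (g : Lip0 𝕜 M o) : ‖ev g‖ ≤ ‖g‖ := LinearMap.mkContinuous_norm_le _ (norm_nonneg _) _

theorem norm_del_sub_le (x y : M) : ‖del 𝕜 o x - del 𝕜 o y‖ ≤ dist x y := by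
  refine ContinuousLinearMap.opNorm_le_bound _ dist_nonneg fun f => ?_
  have := f.norm_sub_le' x y
  rw [mul_comm]
  exact this

theorem del_base : del 𝕜 o o = 0 := by
  have h : ‖del 𝕜 o o‖ ≤ 0 := by
    refine ContinuousLinearMap.opNorm_le_bound _ le_rfl fun f => ?_
    have h1 : dlt 𝕜 M o o f = 0 := f.fn_base
    show ‖dlt 𝕜 M o o f‖ ≤ 0 * ‖f‖
    rw [h1, norm_zero, zero_mul]
  exact norm_le_zero_iff.1 h

theorem dense_span : Dense ((Submodule.span 𝕜 (Set.range (del 𝕜 o)) : Submodule 𝕜 (FreeSp 𝕜 M o)) :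
    Set (FreeSp 𝕜 M o)) := by
  intro μ
  have hμ : inc 𝕜 M o μ ∈ closure ((Submodule.span 𝕜 (Set.range (dlt 𝕜 M o)) :
    Submodule 𝕜 (StrongDual 𝕜 (Lip0 𝕜 M o))) : Set _) := μ.2
  rw [Metric.mem_closure_iff] at hμ ⊢
  intro ε hε
  obtain ⟨ν, hν, hd⟩ := hμ ε hε
  have h2 : Submodule.span 𝕜 (Set.range (dlt 𝕜 M o)) =
      (Submodule.span 𝕜 (Set.range (del 𝕜 o))).map (inc 𝕜 M o) := by
    rw [Submodule.map_span, ← Set.range_comp]
    rfl
  have hν' : ν ∈ Submodule.span 𝕜 (Set.range (dlt 𝕜 M o)) := hν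
  rw [h2] at hν'
  obtain ⟨κ, hκ, rfl⟩ := Submodule.mem_map.1 hν'
  exact ⟨κ, hκ, hd⟩

/-- the member of the free space given by a finitely supported function -/
noncomputable def rep (o : M) (u : M →₀ 𝕜) : FreeSp 𝕜 M o := ∑ x ∈ u.support, u x • del 𝕜 o x

theorem apply_rep (h : StrongDual 𝕜 (FreeSp 𝕜 M o)) (u : M →₀ 𝕜) : h (rep o u) = pr u (fun x => h (del 𝕜 o x)) := by
  unfold rep pr
  rw [map_sum]
  exact Finset.sum_congr rfl fun x _ => by rw [map_smul, smul_eq_mul]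

theorem lipO_apply (h : StrongDual 𝕜 (FreeSp 𝕜 M o)) {K : ℝ} (hK : ‖h‖ ≤ K) : LipO o K (fun x => h (del 𝕜 o x)) := by
  refine ⟨by show h (del 𝕜 o o) = 0; rw [del_base, map_zero], fun x y => ?_⟩
  rw [← map_sub]
  refine (h.le_opNorm _).trans ?_
  exact mul_le_mul hK (norm_del_sub_le x y) (norm_nonneg _) ((norm_nonneg _).trans hK)

/-- the functional given by a Lipschitz function -/
theorem exists_functional {K : ℝ} (hK : 0 ≤ K) {f : M → 𝕜} (hf : LipO o K f) :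
    ∃ F : StrongDual 𝕜 (FreeSp 𝕜 M o), ‖F‖ ≤ K ∧ ∀ x, F (del 𝕜 o x) = f x := by
  refine ⟨ev (Lip0.mk f hf.1 K hK hf.2), (norm_ev_le _).trans (Lip0.norm_le' _ hK hf.2), fun x => ?_⟩
  rw [ev_del]
  rfl

theorem exists_rep (μ : FreeSp 𝕜 M o) {ε : ℝ} (hε : 0 < ε) : ∃ u : M →₀ 𝕜, ‖μ - rep o u‖ < ε := by
  obtain ⟨ν, hν, hd⟩ := Metric.mem_closure_iff.1 (dense_span μ) ε hε
  have hν' : ν ∈ Submodule.span 𝕜 (Set.range (del 𝕜 o)) := hν
  obtain ⟨c, hc⟩ := Finsupp.mem_span_range_iff_exists_finsupp.1 hν'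
  refine ⟨c, ?_⟩
  have h1 : rep o c = ν := by
    rw [← hc]
    rfl
  rw [h1, ← dist_eq_norm]
  exact hd

/-- the selection property holds for the Lipschitz-free spaces of uniformly separated spaces -/
theorem propS_free (hθ : 0 < θ) (hs : ∀ x y : M, x ≠ y → θ ≤ dist x y) : PropS 𝕜 (FreeSp 𝕜 M o) 392 := by
  intro u C hC h hh η hη
  have hε : 0 < η / 1000 := by positivity
  choose v hv using fun j => exists_rep (u j) hε
  have hvC : ∀ j, ‖rep o (v j)‖ ≤ C + η / 1000 := by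
    intro j
    have h1 : rep o (v j) = u j - (u j - rep o (v j)) := by abel
    rw [h1]
    exact (norm_sub_le _ _).trans (add_le_add (hC j) (hv j).le)
  have hpr : ∀ j, ∀ g : M → 𝕜, LipO o 1 g → ‖pr (v j) g‖ ≤ C + η / 1000 := by
    intro j g hg
    obtain ⟨F, hF1, hF2⟩ := exists_functional zero_le_one hg
    have h1 : pr (v j) g = F (rep o (v j)) := by
      rw [apply_rep]
      exact pr_congr _ fun x _ => (hF2 x).symm
    rw [h1]
    refine (F.le_opNorm _).trans ?_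
    calc ‖F‖ * ‖rep o (v j)‖ ≤ 1 * ‖rep o (v j)‖ := mul_le_mul_of_nonneg_right hF1 (norm_nonneg _)
      _ ≤ C + η / 1000 := by rw [one_mul]; exact hvC j
  obtain ⟨f, j, hf, hj, hfj⟩ := glue hθ hs hpr (h := fun j x => h j (del 𝕜 o x)) (fun j => lipO_apply (h j) (hh j))
    (show 0 < η / 2 by positivity)
  obtain ⟨F, hF1, hF2⟩ := exists_functional (by norm_num : (0 : ℝ) ≤ 392) hf
  refine ⟨F, j, hF1, hj, fun i => ?_⟩
  have e1 : F (u (j i)) - h (j i) (u (j i)) = F (u (j i) - rep o (v (j i))) +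
      (pr (v (j i)) f - pr (v (j i)) (fun x => h (j i) (del 𝕜 o x))) - h (j i) (u (j i) - rep o (v (j i))) := by
    have h1 : pr (v (j i)) f = F (rep o (v (j i))) := by
      rw [apply_rep]
      exact pr_congr _ fun x _ => (hF2 x).symm
    rw [h1, ← apply_rep, map_sub, map_sub]
    ring
  rw [e1]
  have n1 := norm_sub_le (F (u (j i) - rep o (v (j i))) +
      (pr (v (j i)) f - pr (v (j i)) (fun x => h (j i) (del 𝕜 o x)))) (h (j i) (u (j i) - rep o (v (j i))))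
  have n2 := norm_add_le (F (u (j i) - rep o (v (j i))))
      (pr (v (j i)) f - pr (v (j i)) (fun x => h (j i) (del 𝕜 o x)))
  have n3 : ‖F (u (j i) - rep o (v (j i)))‖ ≤ 392 * (η / 1000) :=
    (F.le_opNorm _).trans (mul_le_mul hF1 (hv _).le (norm_nonneg _) (by norm_num))
  have n4 : ‖h (j i) (u (j i) - rep o (v (j i)))‖ ≤ 1 * (η / 1000) :=
    ((h (j i)).le_opNorm _).trans (mul_le_mul (hh _) (hv _).le (norm_nonneg _) (by norm_num))
  have n5 := hfj i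
  linarith

end Q99.FS
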