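import Pool.Agent.Q99.FS.Steps

/-!
# Selection of a subsequence and the function in the bounded region
-/

set_option autoImplicit false
set_option linter.unusedSectionVars false
open Filter Topology Finset

namespace Q99.FS

universe v

variable {𝕜 : Type} [RCLike 𝕜] {M : Type v} [MetricSpace M] {o : M} {θ : ℝ}

/-- the selection of the subsequence -/
theorem select (hθ : 0 < θ) (𝓤 : Ultrafilter ℕ) (hfree : ∀ n, ∀ᶠ j in (𝓤 : Filter ℕ), n < j) (u : ℕ → M →₀ 𝕜) (K : ℕ)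
    (good : ℕ → Finset M → ℕ → Prop) (hgood : ∀ K' F, K ≤ K' → ∀ᶠ j in (𝓤 : Filter ℕ), good K' F j) :
    ∃ (j κ : ℕ → ℕ) (F : ℕ → Finset M), StrictMono j ∧ StrictMono κ ∧ κ 0 = K ∧ (∀ i, good (κ i) (F i) (j i)) ∧
      (∀ i i', i < i' → (u (j i)).support ⊆ F i') ∧
      (∀ i, ∀ x ∈ (u (j i)).support, dist x o ≤ sc θ (κ (i + 1))) := by
  classical
  have h1 : ∀ s : ℕ × ℕ × Finset M, ∃ j, s.1 < j ∧ (K ≤ s.2.1 → good s.2.1 s.2.2 j) := by
    intro s
    by_cases hK : K ≤ s.2.1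
    · obtain ⟨j, hj1, hj2⟩ := ((hfree s.1).and (hgood s.2.1 s.2.2 hK)).exists
      exact ⟨j, hj1, fun _ => hj2⟩
    · exact ⟨s.1 + 1, Nat.lt_succ_self _, fun h => absurd h hK⟩
  choose nj hnj1 hnj2 using h1
  have h2 : ∀ j, ∃ k, ∀ x ∈ (u j).support, dist x o ≤ sc θ k := by
    intro j
    obtain ⟨R, hR⟩ := Finset.exists_le ((u j).support.image (fun x => dist x o))
    obtain ⟨k, hk⟩ := exists_sc hθ R
    exact ⟨k, fun x hx => (hR _ (Finset.mem_image_of_mem _ hx)).trans hk⟩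
  choose kk hkk using h2
  obtain ⟨S, hS0, hS1⟩ : ∃ S : ℕ → ℕ × ℕ × Finset M, S 0 = (0, K, ∅) ∧ ∀ n, S (n + 1) =
      (nj (S n), max ((S n).2.1 + 1) (kk (nj (S n))), (S n).2.2 ∪ (u (nj (S n))).support) :=
    ⟨fun n => Nat.rec (0, K, ∅) (fun _ s => (nj s, max (s.2.1 + 1) (kk (nj s)), s.2.2 ∪ (u (nj s)).support)) n,
      rfl, fun _ => rfl⟩
  have hκ : StrictMono (fun n => (S n).2.1) := by
    apply strictMono_nat_of_lt_succ
    intro n
    show (S n).2.1 < (S (n + 1)).2.1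
    rw [hS1]
    show (S n).2.1 < max ((S n).2.1 + 1) (kk (nj (S n)))
    exact lt_of_lt_of_le (Nat.lt_succ_self _) (le_max_left _ _)
  have hF : Monotone (fun n => (S n).2.2) := by
    apply monotone_nat_of_le_succ
    intro n
    show (S n).2.2 ≤ (S (n + 1)).2.2
    rw [hS1]
    exact Finset.subset_union_left
  have hK0 : (S 0).2.1 = K := by rw [hS0]
  refine ⟨fun n => nj (S n), fun n => (S n).2.1, fun n => (S n).2.2, ?_, hκ, hK0, ?_, ?_, ?_⟩
  · apply strictMono_nat_of_lt_succ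
    intro n
    have := hnj1 (S (n + 1))
    rw [hS1] at this
    show nj (S n) < nj (S (n + 1))
    rw [hS1]
    exact this
  · intro i
    apply hnj2
    rw [← hK0]
    exact hκ.monotone (Nat.zero_le i)
  · intro i i' hii
    have h3 : (u (nj (S i))).support ⊆ (S (i + 1)).2.2 := by
      rw [hS1]
      exact Finset.subset_union_right
    exact h3.trans (hF hii)
  · intro i x hx
    refine (hkk _ x hx).trans (sc_mono hθ ?_)
    show kk (nj (S i)) ≤ (S (i + 1)).2.1
    rw [hS1]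
    exact le_max_right _ _

theorem norm_I_le : ‖(RCLike.I : 𝕜)‖ ≤ 1 := by
  by_cases h : (RCLike.I : 𝕜) = 0
  · rw [h, norm_zero]
    exact zero_le_one
  · exact (RCLike.norm_I_of_ne_zero h).le

/-- extension of scalar valued Lipschitz functions -/
theorem extend (S : Set M) (v : M → 𝕜) (hv : ∀ x ∈ S, ∀ y ∈ S, ‖v x - v y‖ ≤ 7 * dist x y) :
    ∃ f : M → 𝕜, (∀ x y, ‖f x - f y‖ ≤ 14 * dist x y) ∧ ∀ x ∈ S, f x = v x := by
  have h1 : LipschitzOnWith 7 (fun x => RCLike.re (v x)) S := by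
    apply LipschitzOnWith.of_dist_le_mul
    intro x hx y hy
    rw [Real.dist_eq, ← map_sub]
    exact (RCLike.abs_re_le_norm _).trans (hv x hx y hy)
  have h2 : LipschitzOnWith 7 (fun x => RCLike.im (v x)) S := by
    apply LipschitzOnWith.of_dist_le_mul
    intro x hx y hy
    rw [Real.dist_eq, ← map_sub]
    exact (RCLike.abs_im_le_norm _).trans (hv x hx y hy)
  obtain ⟨a, ha1, ha2⟩ := h1.extend_real
  obtain ⟨b, hb1, hb2⟩ := h2.extend_real
  refine ⟨fun x => (a x : 𝕜) + (b x : 𝕜) * RCLike.I, fun x y => ?_, fun x hx => ?_⟩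
  · have e1 : ((a x : 𝕜) + (b x : 𝕜) * RCLike.I) - ((a y : 𝕜) + (b y : 𝕜) * RCLike.I) =
        ((a x - a y : ℝ) : 𝕜) + ((b x - b y : ℝ) : 𝕜) * RCLike.I := by
      rw [RCLike.ofReal_sub, RCLike.ofReal_sub]
      ring
    show ‖((a x : 𝕜) + (b x : 𝕜) * RCLike.I) - ((a y : 𝕜) + (b y : 𝕜) * RCLike.I)‖ ≤ _
    rw [e1]
    refine (norm_add_le _ _).trans ?_
    rw [norm_mul, RCLike.norm_ofReal, RCLike.norm_ofReal]
    have h3 := ha1.dist_le_mul x y
    have h4 := hb1.dist_le_mul x y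
    rw [Real.dist_eq] at h3 h4
    have h5 := norm_I_le (𝕜 := 𝕜)
    have h6 : |b x - b y| * ‖(RCLike.I : 𝕜)‖ ≤ |b x - b y| * 1 := mul_le_mul_of_nonneg_left h5 (abs_nonneg _)
    have h7 : ((7 : NNReal) : ℝ) = 7 := rfl
    rw [h7] at h3 h4
    linarith
  · show (a x : 𝕜) + (b x : 𝕜) * RCLike.I = v x
    rw [← ha2 hx, ← hb2 hx]
    exact RCLike.re_add_im (v x)

/-- the function in the bounded region -/
theorem inner_fun (hθ : 0 < θ) (hs : ∀ x y : M, x ≠ y → θ ≤ dist x y) {P : Finset M} (hoP : o ∈ P) {g : M → 𝕜}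
    (hg : LipO o 1 g) {h : ℕ → M → 𝕜} (hh : ∀ i, LipO o 1 (h i)) {R : ℝ} {L : ℕ} (hL : 2 * R ≤ sc θ L)
    (F : ℕ → Finset M) (A : ℕ → Set M) (hA1 : ∀ i, ∀ x ∈ A i, dist x o < R) (hA2 : ∀ i, ∀ x ∈ A i, x ∉ P)
    (hA3 : ∀ i, ∀ x ∈ A i, ∀ l, l ≤ L → x ∈ Nb (sc θ l) (F i) → x ∈ Nb (sc θ l) P)
    (hAF : ∀ i i', i < i' → A i ⊆ F i') (hη : ∀ i, ∀ p ∈ P, ‖h i p - g p‖ ≤ θ) :
    ∃ f : M → 𝕜, LipO o 14 f ∧ (∀ p ∈ P, f p = g p) ∧ ∀ i, ∀ x ∈ A i, f x = h i x := by
  classical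
  -- disjointness
  have hdis : ∀ i i', i < i' → ∀ x, x ∈ A i → x ∈ A i' → False := by
    intro i i' hii x hx hx'
    have h1 : x ∈ Nb (sc θ 0) (F i') := ⟨x, hAF i i' hii hx, by
      rw [dist_self]
      exact (sc_pos hθ 0).le⟩
    obtain ⟨p, hp, hd⟩ := hA3 i' x hx' 0 (Nat.zero_le _) h1
    apply hA2 i' x hx'
    by_cases hxp : x = p
    · rw [hxp]
      exact hp
    · have h2 := hs x p hxp
      unfold sc at hd
      rw [pow_zero, mul_one] at hd
      linarith
  have huniq : ∀ i i' x, x ∈ A i → x ∈ A i' → i = i' := by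
    intro i i' x hx hx'
    rcases Nat.lt_trichotomy i i' with h1 | h1 | h1
    · exact (hdis i i' h1 x hx hx').elim
    · exact h1
    · exact (hdis i' i h1 x hx' hx).elim
  obtain ⟨v, hv⟩ : ∃ v : M → 𝕜, v = fun x => if x ∈ P then g x else if hx : ∃ i, x ∈ A i then h hx.choose x else 0 :=
    ⟨_, rfl⟩
  have hvP : ∀ p ∈ P, v p = g p := fun p hp => by
    rw [hv]
    exact if_pos hp
  have hvA : ∀ i, ∀ x ∈ A i, v x = h i x := fun i x hx => by
    have hex : ∃ i, x ∈ A i := ⟨i, hx⟩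
    rw [hv]
    show (if x ∈ P then g x else if hx : ∃ i, x ∈ A i then h hx.choose x else 0) = h i x
    rw [if_neg (hA2 i x hx), dif_pos hex, huniq _ _ x hex.choose_spec hx]
  -- the main estimate
  have key : ∀ i i', i' < i → ∀ x ∈ A i, ∀ y ∈ A i', ‖v x - v y‖ ≤ 7 * dist x y := by
    intro i i' hii x hx y hy
    rw [hvA i x hx, hvA i' y hy]
    have hne : x ≠ y := fun he => hdis i' i hii x (he ▸ hy) hx
    have hd := hs x y hne
    have hdR : dist x y < 2 * R := by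
      have h1 := dist_triangle x o y
      rw [dist_comm o y] at h1
      linarith [hA1 i x hx, hA1 i' y hy]
    -- the scale
    have hex : ∃ l, dist x y ≤ sc θ l := ⟨L, by linarith⟩
    obtain ⟨l, hl1, hl2⟩ : ∃ l, dist x y ≤ sc θ l ∧ ∀ m, m < l → ¬ dist x y ≤ sc θ m :=
      ⟨Nat.find hex, Nat.find_spec hex, fun m hm => Nat.find_min hex hm⟩
    have hlL : l ≤ L := by
      by_contra hc
      push Not at hc
      exact hl2 L hc (by linarith)
    have hl0 : l ≠ 0 := by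
      rintro rfl
      unfold sc at hl1
      rw [pow_zero, mul_one] at hl1
      linarith
    obtain ⟨m, rfl⟩ := Nat.exists_eq_succ_of_ne_zero hl0
    have h3 := hl2 m (Nat.lt_succ_self m)
    push Not at h3
    have h4 : sc θ (m + 1) < 2 * dist x y := by
      rw [sc_succ]
      linarith
    obtain ⟨p, hp, hxp⟩ := hA3 i x hx (m + 1) hlL ⟨y, hAF i' i hii hy, hl1⟩
    have e1 : h i x - h i' y = (h i x - h i p) + (h i p - g p) - (h i' p - g p) + (h i' p - h i' y) := by ring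
    rw [e1]
    have n1 := norm_add_le ((h i x - h i p) + (h i p - g p) - (h i' p - g p)) (h i' p - h i' y)
    have n2 := norm_sub_le ((h i x - h i p) + (h i p - g p)) (h i' p - g p)
    have n3 := norm_add_le (h i x - h i p) (h i p - g p)
    have n4 := (hh i).2 x p
    have n5 := (hh i').2 p y
    have n6 := hη i p hp
    have n7 := hη i' p hp
    have n8 : dist p y ≤ dist x p + dist x y := by
      have := dist_triangle p x y
      rwa [dist_comm p x] at this
    linarith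
  have keyP : ∀ i, ∀ x ∈ A i, ∀ p ∈ P, ‖v x - v p‖ ≤ 7 * dist x p := by
    intro i x hx p hp
    rw [hvA i x hx, hvP p hp]
    have hne : x ≠ p := fun he => hA2 i x hx (he ▸ hp)
    have hd := hs x p hne
    have e1 : h i x - g p = (h i x - h i p) + (h i p - g p) := by ring
    rw [e1]
    have n3 := norm_add_le (h i x - h i p) (h i p - g p)
    have n4 := (hh i).2 x p
    have n6 := hη i p hp
    linarith
  obtain ⟨f, hf1, hf2⟩ := extend ((P : Set M) ∪ ⋃ i, A i) v (by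
    intro x hx y hy
    rcases hx with hx | hx
    · rcases hy with hy | hy
      · rw [hvP x hx, hvP y hy]
        have := hg.2 x y
        have h2 : 0 ≤ dist x y := dist_nonneg
        linarith
      · obtain ⟨i, hy⟩ := Set.mem_iUnion.1 hy
        rw [← norm_neg, neg_sub, dist_comm]
        exact keyP i y hy x hx
    · obtain ⟨i, hx⟩ := Set.mem_iUnion.1 hx
      rcases hy with hy | hy
      · exact keyP i x hx y hy
      · obtain ⟨i', hy⟩ := Set.mem_iUnion.1 hy
        rcases Nat.lt_trichotomy i i' with h1 | h1 | h1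
        · rw [← norm_neg, neg_sub, dist_comm]
          exact key i' i h1 y hy x hx
        · subst h1
          rw [hvA i x hx, hvA i y hy]
          have := (hh i).2 x y
          have h2 : 0 ≤ dist x y := dist_nonneg
          linarith
        · exact key i i' h1 x hx y hy)
  refine ⟨f, ⟨?_, hf1⟩, fun p hp => ?_, fun i x hx => ?_⟩
  · rw [hf2 o (Or.inl hoP), hvP o hoP, hg.1]
  · rw [hf2 p (Or.inl hp), hvP p hp]
  · rw [hf2 x (Or.inr (Set.mem_iUnion.2 ⟨i, hx⟩)), hvA i x hx]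

end Q99.FS
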