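import Pool.Agent.Q99.FS.Abstract

/-!
# The two measures of weak non-compactness in spaces with the selection property
-/

set_option autoImplicit false
set_option linter.unusedSectionVars false
open Filter Topology ENNReal

namespace Q99.FS

universe v

variable {𝕜 : Type} [RCLike 𝕜] {X : Type v} [NormedAddCommGroup X] [NormedSpace 𝕜 X]

theorem le_opNorm_of {E : Type v} [SeminormedAddCommGroup E] [NormedSpace 𝕜 E] (T : StrongDual 𝕜 E) {g : E} {K : ℝ}
    (hg : ‖g‖ ≤ K) : ‖T g‖ ≤ ‖T‖ * K :=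
  (T.le_opNorm g).trans (mul_le_mul_of_nonneg_left hg (norm_nonneg _))

/-- a functional vanishing on a subspace and realizing the distance -/
theorem hb (S : Submodule 𝕜 X) (x : X) (d : ℝ) (hd : ∀ y ∈ S, d ≤ ‖x - y‖) :
    ∃ g : StrongDual 𝕜 X, ‖g‖ ≤ 1 ∧ (∀ y ∈ S, g y = 0) ∧ d ≤ ‖g x‖ := by
  obtain ⟨g, hg1, hg2⟩ := exists_dual_vector'' 𝕜 (Submodule.Quotient.mk x : X ⧸ S)
  refine ⟨g.comp S.mkQL, ?_, ?_, ?_⟩
  · apply ContinuousLinearMap.opNorm_le_bound _ zero_le_one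
    intro y
    refine (g.le_opNorm _).trans ?_
    exact mul_le_mul hg1 (Submodule.Quotient.norm_mk_le S y) (norm_nonneg _) zero_le_one
  · intro y hy
    have h1 : (Submodule.Quotient.mk y : X ⧸ S) = 0 := (Submodule.Quotient.mk_eq_zero S).2 hy
    show g (Submodule.Quotient.mk y : X ⧸ S) = 0
    rw [h1, map_zero]
  · show d ≤ ‖g (Submodule.Quotient.mk x : X ⧸ S)‖
    rw [hg2, RCLike.norm_ofReal, abs_norm]
    apply _root_.le_of_forall_pos_le_add
    intro ε hε
    obtain ⟨m, hm1, hm2⟩ := Submodule.Quotient.norm_mk_lt (Submodule.Quotient.mk x : X ⧸ S) hε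
    have h1 : x - m ∈ S := (Submodule.Quotient.eq S).1 hm1.symm
    have h2 := hd _ h1
    rw [_root_.sub_sub_cancel] at h2
    linarith

/-- the main construction -/
theorem core {K : ℝ} (hK : 0 < K) (hS : PropS 𝕜 X K) {w : ℕ → X} {C : ℝ} (hw : ∀ j, ‖w j‖ ≤ C) {t : ℝ}
    (ht : ∀ i j, i < j → t ≤ ‖w j - w i‖) {η : ℝ} (hη : 0 < η) :
    ∃ (𝓥 : Ultrafilter ℕ) (z : StrongDual 𝕜 (StrongDual 𝕜 X)),
      Tendsto (fun k => StrongDual.toWeakDual (NormedSpace.inclusionInDoubleDual 𝕜 X (w k))) 𝓥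
        (𝓝 (StrongDual.toWeakDual z)) ∧
      ∀ x : X, (t / 2 - η) / (2 * K) ≤ ‖z - NormedSpace.inclusionInDoubleDual 𝕜 X x‖ := by
  -- a countable dense subset of the span
  obtain ⟨y, hyS, hyd⟩ : ∃ y : ℕ → X, (∀ n, y n ∈ Submodule.span 𝕜 (Set.range w)) ∧
      ((Submodule.span 𝕜 (Set.range w) : Submodule 𝕜 X) : Set X) ⊆ closure (Set.range y) := by
    have h1 : TopologicalSpace.IsSeparable (Set.range w) := (Set.countable_range w).isSeparable
    have h2 : TopologicalSpace.IsSeparable ((Submodule.span 𝕜 (Set.range w) : Submodule 𝕜 X) : Set X) := h1.span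
    obtain ⟨s, hs1, hs2, hs3⟩ := h2.exists_countable_dense_subset
    have hne : s.Nonempty := by
      by_contra hc
      rw [Set.not_nonempty_iff_eq_empty] at hc
      rw [hc, closure_empty] at hs3
      exact hs3 (Submodule.zero_mem (Submodule.span 𝕜 (Set.range w)))
    obtain ⟨y, hy⟩ := hs2.exists_eq_range hne
    refine ⟨y, fun n => hs1 (by rw [hy]; exact ⟨n, rfl⟩), ?_⟩
    rw [← hy]
    exact hs3
  -- the successive selections
  have hstep : ∀ (n : ℕ) (σ : ℕ → ℕ), ∃ (f : StrongDual 𝕜 X) (j : ℕ → ℕ), ‖f‖ ≤ K ∧ StrictMono j ∧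
      ∀ i, ‖f (w (σ (j i)) - y n) - ((‖w (σ (j i)) - y n‖ : ℝ) : 𝕜)‖ ≤ η := by
    intro n σ
    choose h hh1 hh2 using fun i => exists_dual_vector'' 𝕜 (w (σ i) - y n)
    obtain ⟨f, j, hf, hj, hfj⟩ := hS (fun i => w (σ i) - y n) (C + ‖y n‖)
      (fun i => (norm_sub_le _ _).trans (add_le_add (hw _) le_rfl)) h hh1 η hη
    refine ⟨f, j, hf, hj, fun i => ?_⟩
    rw [← hh2]
    exact hfj i
  choose nf nj hnf hnj hnfj using hstep
  obtain ⟨σ, hσ0, hσ1⟩ : ∃ σ : ℕ → (ℕ → ℕ), σ 0 = id ∧ ∀ n, σ (n + 1) = σ n ∘ nj n (σ n) :=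
    ⟨fun n => Nat.rec id (fun n s => s ∘ nj n s) n, rfl, fun _ => rfl⟩
  have hle : ∀ n, map (σ (n + 1)) atTop ≤ map (σ n) atTop := by
    intro n
    rw [hσ1, ← Filter.map_map]
    exact Filter.map_mono (hnj n (σ n)).tendsto_atTop
  have hanti : Antitone (fun n => map (σ n) atTop) := antitone_nat_of_succ_le hle
  have hne : NeBot (⨅ n, map (σ n) atTop) := by
    apply Filter.iInf_neBot_of_directed'
    · intro a b
      exact ⟨max a b, hanti (le_max_left a b), hanti (le_max_right a b)⟩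
    · intro n
      exact Filter.NeBot.map inferInstance _
  set 𝓥 : Ultrafilter ℕ := Ultrafilter.of (⨅ n, map (σ n) atTop) with h𝓥
  have h𝓥n : ∀ n, (𝓥 : Filter ℕ) ≤ map (σ n) atTop := fun n => (Ultrafilter.of_le _).trans (iInf_le _ n)
  have h𝓥t : (𝓥 : Filter ℕ) ≤ atTop := by
    have := h𝓥n 0
    rwa [hσ0, Filter.map_id] at this
  obtain ⟨z, hz⟩ := exists_limit (𝕜 := 𝕜) 𝓥 hw
  refine ⟨𝓥, z, hz, ?_⟩
  -- distance to the dense set
  have hq1 : ∀ n, (t / 2 - η) / K ≤ ‖z - NormedSpace.inclusionInDoubleDual 𝕜 X (y n)‖ := by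
    intro n
    have e1 : ∀ᶠ k in (𝓥 : Filter ℕ), ‖nf n (σ n) (w k - y n) - ((‖w k - y n‖ : ℝ) : 𝕜)‖ ≤ η := by
      apply h𝓥n (n + 1)
      rw [hσ1]
      show ∀ᶠ i in atTop, _
      exact Filter.Eventually.of_forall fun i => hnfj n (σ n) i
    have e2 : ∀ᶠ k in (𝓥 : Filter ℕ), t / 2 ≤ ‖w k - y n‖ := by
      by_cases hex : ∃ k0, ‖w k0 - y n‖ < t / 2
      · obtain ⟨k0, hk0⟩ := hex
        refine Filter.Eventually.mono (h𝓥t (eventually_gt_atTop k0)) fun k hk => ?_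
        have h1 := ht k0 k hk
        have h2 : w k - w k0 = (w k - y n) - (w k0 - y n) := by abel
        rw [h2] at h1
        have h3 := norm_sub_le (w k - y n) (w k0 - y n)
        linarith
      · push Not at hex
        exact Filter.Eventually.of_forall hex
    have e3 : ∀ᶠ k in (𝓥 : Filter ℕ), t / 2 - η ≤ ‖nf n (σ n) (w k) - nf n (σ n) (y n)‖ := by
      filter_upwards [e1, e2] with k h1 h2
      rw [← map_sub]
      have h3 := norm_sub_norm_le ((‖w k - y n‖ : ℝ) : 𝕜) (nf n (σ n) (w k - y n))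
      rw [RCLike.norm_ofReal, abs_norm, norm_sub_rev ((‖w k - y n‖ : ℝ) : 𝕜)] at h3
      linarith
    have e4 := ((tendsto_eval hz (nf n (σ n))).sub_const (nf n (σ n) (y n))).norm
    have e5 : t / 2 - η ≤ ‖z (nf n (σ n)) - nf n (σ n) (y n)‖ := ge_of_tendsto e4 e3
    have e6 : z (nf n (σ n)) - nf n (σ n) (y n) = (z - NormedSpace.inclusionInDoubleDual 𝕜 X (y n)) (nf n (σ n)) := rfl
    rw [e6] at e5
    have e7 := le_opNorm_of (z - NormedSpace.inclusionInDoubleDual 𝕜 X (y n)) (hnf n (σ n))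
    rw [div_le_iff₀ hK]
    linarith
  -- distance to the span
  have hq2 : ∀ x ∈ Submodule.span 𝕜 (Set.range w), (t / 2 - η) / K ≤ ‖z - NormedSpace.inclusionInDoubleDual 𝕜 X x‖ := by
    intro x hx
    apply _root_.le_of_forall_pos_le_add
    intro ε hε
    obtain ⟨_, ⟨n, rfl⟩, hn⟩ := Metric.mem_closure_iff.1 (hyd hx) ε hε
    have h1 := hq1 n
    have h2 : z - NormedSpace.inclusionInDoubleDual 𝕜 X (y n) = (z - NormedSpace.inclusionInDoubleDual 𝕜 X x) +
        NormedSpace.inclusionInDoubleDual 𝕜 X (x - y n) := by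
      rw [map_sub]
      abel
    have h3 := norm_add_le (z - NormedSpace.inclusionInDoubleDual 𝕜 X x) (NormedSpace.inclusionInDoubleDual 𝕜 X (x - y n))
    rw [← h2] at h3
    have h4 := NormedSpace.double_dual_bound 𝕜 X (x - y n)
    rw [dist_eq_norm] at hn
    linarith
  -- distance to the space
  intro x
  by_contra hcon
  push Not at hcon
  set d := ‖z - NormedSpace.inclusionInDoubleDual 𝕜 X x‖ with hd
  have hqd : (t / 2 - η) / (2 * K) = (t / 2 - η) / K / 2 := by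
    rw [div_div, mul_comm]
  rw [hqd] at hcon
  set q := (t / 2 - η) / K with hq
  obtain ⟨g, hg1, hg2, hg3⟩ := hb (Submodule.span 𝕜 (Set.range w)) x (q - d) (by
    intro v hv
    have h1 := hq2 v hv
    have h2 : z - NormedSpace.inclusionInDoubleDual 𝕜 X v = (z - NormedSpace.inclusionInDoubleDual 𝕜 X x) +
        NormedSpace.inclusionInDoubleDual 𝕜 X (x - v) := by
      rw [map_sub]
      abel
    have h3 := norm_add_le (z - NormedSpace.inclusionInDoubleDual 𝕜 X x) (NormedSpace.inclusionInDoubleDual 𝕜 X (x - v))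
    rw [← h2] at h3
    have h4 := NormedSpace.double_dual_bound 𝕜 X (x - v)
    linarith)
  have h5 : z g = 0 := by
    have h6 := tendsto_eval hz g
    have h7 : (fun k => g (w k)) = fun _ => (0 : 𝕜) := funext fun k => hg2 _ (Submodule.subset_span ⟨k, rfl⟩)
    rw [h7] at h6
    exact tendsto_nhds_unique h6 tendsto_const_nhds |>.symm ▸ rfl
  have h8 : ‖g x‖ ≤ d := by
    have h9 : (z - NormedSpace.inclusionInDoubleDual 𝕜 X x) g = - g x := by
      show z g - g x = - g x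
      rw [h5, zero_sub]
    have h10 := le_opNorm_of (z - NormedSpace.inclusionInDoubleDual 𝕜 X x) hg1
    rw [h9, norm_neg] at h10
    linarith
  linarith

/-- the two measures are equivalent in spaces with the selection property -/
theorem omega_le {K : ℝ} (hK : 0 < K) (hS : PropS 𝕜 X K) {A : Set X} {C : ℝ} (hA : ∀ x ∈ A, ‖x‖ ≤ C) :
    omega 𝕜 A ≤ ENNReal.ofReal (4 * K) * wk 𝕜 A := by
  classical
  apply le_of_forall_lt
  intro s hs
  obtain ⟨s1, hs1, hs2⟩ := exists_between hs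
  refine lt_of_lt_of_le hs1 ?_
  obtain ⟨s2, hs3, hs4⟩ := exists_between hs2
  have hs2top : s2 ≠ ⊤ := ne_top_of_lt hs4
  have hs1top : s1 ≠ ⊤ := ne_top_of_lt hs3
  have hreal : s1.toReal < s2.toReal := (ENNReal.toReal_lt_toReal hs1top hs2top).2 hs3
  have h1 : ∀ F : Set X, F.Finite → F.Nonempty → ∃ a ∈ A, s2 < Metric.infEDist a F := by
    intro F hF hne
    have h2 : omega 𝕜 A ≤ ⨆ a ∈ A, Metric.infEDist a F :=
      iInf_le_of_le F (iInf_le_of_le hne (iInf_le_of_le (hF.image _).isCompact le_rfl))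
    have h3 := lt_of_lt_of_le hs4 h2
    obtain ⟨a, h4⟩ := lt_iSup_iff.1 h3
    obtain ⟨ha, h5⟩ := lt_iSup_iff.1 h4
    exact ⟨a, ha, h5⟩
  obtain ⟨w, hwA, hw⟩ := exists_seq_of_forall_finset_exists (fun x : X => x ∈ A) (fun x y => s2.toReal ≤ ‖y - x‖) (by
    intro F _
    obtain ⟨a, ha, h2⟩ := h1 (insert 0 (F : Set X)) (F.finite_toSet.insert 0) ⟨0, Set.mem_insert _ _⟩
    refine ⟨a, ha, fun x hx => ?_⟩
    have h3 : s2 < edist a x := lt_of_lt_of_le h2 (Metric.infEDist_le_edist_of_mem (Set.mem_insert_of_mem _ hx))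
    rw [edist_ofReal] at h3
    exact ((ENNReal.lt_ofReal_iff_toReal_lt hs2top).1 h3).le)
  obtain ⟨𝓥, z, hz1, hz2⟩ := core hK hS (fun j => hA _ (hwA j)) hw (η := (s2.toReal - s1.toReal) / 2) (by linarith)
  have hzA : z ∈ wclosure 𝕜 A := by
    apply mem_closure_of_tendsto hz1
    exact Filter.Eventually.of_forall fun k => ⟨w k, hwA k, rfl⟩
  have h4 : ENNReal.ofReal (s1.toReal / (4 * K)) ≤ wk 𝕜 A := by
    refine le_trans ?_ (le_iSup_of_le z (le_iSup_of_le hzA le_rfl))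
    apply Metric.le_infEDist.2
    rintro _ ⟨x, rfl⟩
    rw [edist_ofReal]
    apply ENNReal.ofReal_le_ofReal
    refine le_trans ?_ (hz2 x)
    rw [div_le_div_iff₀ (by positivity) (by positivity)]
    nlinarith
  calc s1 = ENNReal.ofReal s1.toReal := (ENNReal.ofReal_toReal hs1top).symm
    _ = ENNReal.ofReal (4 * K) * ENNReal.ofReal (s1.toReal / (4 * K)) := by
      rw [← ENNReal.ofReal_mul (by positivity), mul_div_cancel₀ _ (by positivity)]
    _ ≤ ENNReal.ofReal (4 * K) * wk 𝕜 A := mul_le_mul_right h4 _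

end Q99.FS
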