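import Pool.Agent.Q99.FS.Basic

/-!
# The selection steps
-/

set_option autoImplicit false
set_option linter.unusedSectionVars false
open Filter Topology Finset

namespace Q99.FS

universe v

variable {𝕜 : Type} [RCLike 𝕜] {M : Type v} [MetricSpace M] {o : M} {θ : ℝ}

theorem phase_lip {c : 𝕜} (hc : ‖c‖ = 1) {g : M → 𝕜} (hg : LipO o 1 g) : LipO o 1 (fun x => c * g x) :=
  hg.scale c 1 (by rw [hc, one_mul])

/-- step one: the outer annuli carry nothing -/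
theorem step_one (hθ : 0 < θ) (𝓤 : Ultrafilter ℕ) {u : ℕ → M →₀ 𝕜} {C : ℝ}
    (hC : ∀ j, ∀ g : M → 𝕜, LipO o 1 g → ‖pr (u j) g‖ ≤ C) {η : ℝ} (hη : 0 < η) :
    ∃ K, ∀ K', K < K' → ∀ᶠ j in (𝓤 : Filter ℕ), ∀ g : ℕ → M → 𝕜, (∀ k, LipO o 1 (g k)) →
      ‖∑ k ∈ Ico K K', pr (u j) (fun x => (phi o θ k x : 𝕜) * g k x)‖ ≤ η := by
  by_contra hcon
  push Not at hcon
  choose nx hnx1 hnx2 using hcon
  obtain ⟨κ, hκ0, hκ1⟩ : ∃ κ : ℕ → ℕ, κ 0 = 0 ∧ ∀ i, κ (i + 1) = nx (κ i) :=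
    ⟨fun n => Nat.rec 0 (fun _ k => nx k) n, rfl, fun _ => rfl⟩
  have hκ2 : ∀ i, κ i < κ (i + 1) := fun i => by
    rw [hκ1]
    exact hnx1 _
  obtain ⟨N, hN⟩ := exists_nat_gt (28 * C / η)
  have h1 : ∀ i, ∀ᶠ j in (𝓤 : Filter ℕ), ∃ g : ℕ → M → 𝕜, (∀ k, LipO o 1 (g k)) ∧
      η < ‖∑ k ∈ Ico (κ i) (κ (i + 1)), pr (u j) (fun x => (phi o θ k x : 𝕜) * g k x)‖ := by
    intro i
    rw [hκ1]
    exact hnx2 (κ i)
  have h2 : ∀ᶠ j in (𝓤 : Filter ℕ), ∀ i ∈ range N, ∃ g : ℕ → M → 𝕜, (∀ k, LipO o 1 (g k)) ∧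
      η < ‖∑ k ∈ Ico (κ i) (κ (i + 1)), pr (u j) (fun x => (phi o θ k x : 𝕜) * g k x)‖ :=
    (Filter.eventually_all_finset _).2 (fun i _ => h1 i)
  obtain ⟨j, hj⟩ := h2.exists
  choose! g hg1 hg2 using hj
  have h3 : ∀ n, n ≤ N → ∃ G : ℕ → M → 𝕜, (∀ k, LipO o 1 (G k)) ∧ ∃ r : ℝ, n * η ≤ r ∧
      ∑ k ∈ range (κ n), pr (u j) (fun x => (phi o θ k x : 𝕜) * G k x) = (r : 𝕜) := by
    intro n
    induction n with
    | zero =>
      intro _
      refine ⟨fun _ _ => 0, fun k => ⟨rfl, fun x y => ?_⟩, 0, ?_, ?_⟩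
      · rw [sub_self, norm_zero]
        positivity
      · simp
      · rw [hκ0, range_zero, Finset.sum_empty, RCLike.ofReal_zero]
    | succ n ih =>
      intro hn
      obtain ⟨G, hG, r, hr1, hr2⟩ := ih (by omega)
      have hnN : n ∈ range N := Finset.mem_range.2 (by omega)
      obtain ⟨c, hc1, hc2⟩ := exists_phase (∑ k ∈ Ico (κ n) (κ (n + 1)),
        pr (u j) (fun x => (phi o θ k x : 𝕜) * g n k x))
      refine ⟨fun k => if k < κ n then G k else fun x => c * g n k x, ?_, r + ‖∑ k ∈ Ico (κ n) (κ (n + 1)),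
        pr (u j) (fun x => (phi o θ k x : 𝕜) * g n k x)‖, ?_, ?_⟩
      · intro k
        show LipO o 1 (if k < κ n then G k else fun x => c * g n k x)
        split_ifs
        · exact hG k
        · exact phase_lip hc1 (hg1 n hnN k)
      · have := hg2 n hnN
        push_cast
        linarith
      · rw [← Finset.sum_range_add_sum_Ico _ (hκ2 n).le, RCLike.ofReal_add, ← hr2, ← hc2, Finset.mul_sum]
        congr 1
        · apply Finset.sum_congr rfl
          intro k hk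
          rw [Finset.mem_range] at hk
          apply pr_congr
          intro x _
          show (phi o θ k x : 𝕜) * (if k < κ n then G k else fun x => c * g n k x) x = _
          rw [if_pos hk]
        · apply Finset.sum_congr rfl
          intro k hk
          rw [Finset.mem_Ico] at hk
          rw [← pr_smul]
          apply pr_congr
          intro x _
          show (phi o θ k x : 𝕜) * (if k < κ n then G k else fun x => c * g n k x) x = _
          rw [if_neg (not_lt.2 hk.1)]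
          ring
  obtain ⟨G, hG, r, hr1, hr2⟩ := h3 N le_rfl
  rw [← pr_sum] at hr2
  have h4 := pr_le (hC j) (by norm_num) (sum_phi_lip hθ (range (κ N)) (fun k _ => hG k))
  rw [hr2, RCLike.norm_ofReal] at h4
  rw [div_lt_iff₀ hη] at hN
  have := le_abs_self r
  linarith

/-- neighbourhoods -/
def Nb (ρ : ℝ) (F : Set M) : Set M := {x | ∃ y ∈ F, dist x y ≤ ρ}

theorem Nb_mono (ρ : ℝ) {F G : Set M} (h : F ⊆ G) : Nb ρ F ⊆ Nb ρ G :=
  fun _ ⟨y, hy, hd⟩ => ⟨y, h hy, hd⟩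

theorem step_two (hθ : 0 < θ) (hs : ∀ x y : M, x ≠ y → θ ≤ dist x y) (𝓤 : Ultrafilter ℕ) {u : ℕ → M →₀ 𝕜} {C : ℝ}
    (hC : ∀ j, ∀ g : M → 𝕜, LipO o 1 g → ‖pr (u j) g‖ ≤ C) (ρ : ℝ) {τ : ℝ} (hτ : 0 < τ) :
    ∃ P : Finset M, ∀ F : Finset M, ∀ᶠ j in (𝓤 : Filter ℕ), mass o (u j) (Nb ρ F \ Nb ρ P) ≤ τ := by
  classical
  by_contra hcon
  push Not at hcon
  choose nx hnx using hcon
  obtain ⟨P, hP0, hP1⟩ : ∃ P : ℕ → Finset M, P 0 = ∅ ∧ ∀ i, P (i + 1) = P i ∪ nx (P i) :=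
    ⟨fun n => Nat.rec ∅ (fun _ k => k ∪ nx k) n, rfl, fun _ => rfl⟩
  have hPm : Monotone P := monotone_nat_of_le_succ (fun i => by
    rw [hP1]
    exact Finset.subset_union_left)
  obtain ⟨N, hN⟩ := exists_nat_gt (2 / θ * C / τ)
  have h1 : ∀ i, ∀ᶠ j in (𝓤 : Filter ℕ), τ < mass o (u j) (Nb ρ (nx (P i)) \ Nb ρ (P i)) := by
    intro i
    exact hnx (P i)
  have h2 : ∀ᶠ j in (𝓤 : Filter ℕ), ∀ i ∈ range N, τ < mass o (u j) (Nb ρ (nx (P i)) \ Nb ρ (P i)) :=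
    (Filter.eventually_all_finset _).2 (fun i _ => h1 i)
  obtain ⟨j, hj⟩ := h2.exists
  have h3 := sum_mass_le hθ hs (hC j) N (fun i => Nb ρ (nx (P i)) \ Nb ρ (P i)) (by
    intro a b hab _
    rw [Set.disjoint_left]
    intro x hx hx'
    apply hx'.2
    have h4 : (nx (P a) : Set M) ⊆ P b := by
      have h5 : nx (P a) ⊆ P (a + 1) := by
        rw [hP1]
        exact Finset.subset_union_right
      exact_mod_cast h5.trans (hPm hab)
    exact Nb_mono ρ h4 hx.1)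
  have h4 : ∑ i ∈ range N, τ ≤ ∑ i ∈ range N, mass o (u j) (Nb ρ (nx (P i)) \ Nb ρ (P i)) :=
    Finset.sum_le_sum (fun i hi => (hj i hi).le)
  rw [Finset.sum_const, card_range, nsmul_eq_mul] at h4
  rw [div_lt_iff₀ hτ] at hN
  linarith

/-- step two, for finitely many scales -/
theorem step_two' (hθ : 0 < θ) (hs : ∀ x y : M, x ≠ y → θ ≤ dist x y) (𝓤 : Ultrafilter ℕ) {u : ℕ → M →₀ 𝕜} {C : ℝ}
    (hC : ∀ j, ∀ g : M → 𝕜, LipO o 1 g → ‖pr (u j) g‖ ≤ C) (L : ℕ) {τ : ℝ} (hτ : 0 < τ) :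
    ∃ P : Finset M, o ∈ P ∧ ∀ F : Finset M, ∀ᶠ j in (𝓤 : Filter ℕ), ∀ l ∈ range L,
      mass o (u j) (Nb (sc θ l) F \ Nb (sc θ l) P) ≤ τ := by
  classical
  choose Q hQ using fun l => step_two hθ hs 𝓤 hC (sc θ l) hτ
  refine ⟨{o} ∪ (range L).biUnion Q, Finset.mem_union_left _ (Finset.mem_singleton_self o), fun F => ?_⟩
  rw [Filter.eventually_all_finset]
  intro l hl
  refine (hQ l F).mono fun j hj => (mass_mono o (u j) ?_).trans hj
  apply Set.sdiff_subset_sdiff_right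
  apply Nb_mono
  have h1 : Q l ⊆ {o} ∪ (range L).biUnion Q :=
    (Finset.subset_biUnion_of_mem Q hl).trans Finset.subset_union_right
  exact_mod_cast h1

/-- limits of Lipschitz functions along an ultrafilter -/
theorem step_three (𝓤 : Ultrafilter ℕ) {h : ℕ → M → 𝕜} (hh : ∀ j, LipO o 1 (h j)) :
    ∃ g : M → 𝕜, LipO o 1 g ∧ ∀ x, Tendsto (fun j => h j x) 𝓤 (𝓝 (g x)) := by
  have h1 : ∀ x, ∃ z : 𝕜, Tendsto (fun j => h j x) 𝓤 (𝓝 z) := by
    intro x
    have h2 : IsCompact (Metric.closedBall (0 : 𝕜) (dist x o)) := isCompact_closedBall _ _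
    obtain ⟨z, _, hz⟩ := h2.ultrafilter_le_nhds (𝓤.map (fun j => h j x)) (by
      rw [Filter.le_principal_iff, Ultrafilter.mem_coe, Ultrafilter.mem_map]
      apply Filter.univ_mem'
      intro j
      show h j x ∈ Metric.closedBall (0 : 𝕜) (dist x o)
      rw [mem_closedBall_zero_iff]
      have := (hh j).base x
      rwa [one_mul] at this)
    exact ⟨z, hz⟩
  choose g hg using h1
  refine ⟨g, ⟨?_, fun x y => ?_⟩, hg⟩
  · have h2 : Tendsto (fun j => h j o) 𝓤 (𝓝 0) := by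
      have : (fun j => h j o) = fun _ => (0 : 𝕜) := funext fun j => (hh j).1
      rw [this]
      exact tendsto_const_nhds
    exact tendsto_nhds_unique (hg o) h2
  · exact le_of_tendsto ((hg x).sub (hg y)).norm (Filter.Eventually.of_forall fun j => (hh j).2 x y)

end Q99.FS
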